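import Pool.Agent.R194.Baz.Alg

/-!
Weighted accretivity of lower triangular Toeplitz matrices, formulated for power series.
-/
namespace Pool.Agent.R194.Baz

open PowerSeries Finset ComplexConjugate

/-- `H` (as a truncated multiplication operator) is accretive for the weights `w` -/
def Acc (n : ℕ) (w : ℕ → ℝ) (H : PowerSeries ℂ) : Prop :=
  ∀ x : PowerSeries ℂ, 0 ≤ ∑ i ∈ range (n+1), w i * (conj (coeff i x) * coeff i (H * x)).re

lemma Acc.add {n : ℕ} {w : ℕ → ℝ} {H K : PowerSeries ℂ} (h : Acc n w H) (k : Acc n w K) :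
    Acc n w (H + K) := by
  intro x
  have e : ∑ i ∈ range (n+1), w i * (conj (coeff i x) * coeff i ((H+K) * x)).re =
      ∑ i ∈ range (n+1), w i * (conj (coeff i x) * coeff i (H * x)).re +
      ∑ i ∈ range (n+1), w i * (conj (coeff i x) * coeff i (K * x)).re := by
    rw [← sum_add_distrib]
    apply sum_congr rfl; intro i _
    rw [add_mul, map_add, mul_add, Complex.add_re]; ring
  rw [e]; exact add_nonneg (h x) (k x)

lemma Acc.smul {n : ℕ} {w : ℕ → ℝ} {H : PowerSeries ℂ} (h : Acc n w H) {c : ℝ} (hc : 0 ≤ c) :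
    Acc n w (C (c:ℂ) * H) := by
  intro x
  have e : ∑ i ∈ range (n+1), w i * (conj (coeff i x) * coeff i ((C (c:ℂ) * H) * x)).re =
      c * ∑ i ∈ range (n+1), w i * (conj (coeff i x) * coeff i (H * x)).re := by
    rw [mul_sum]
    apply sum_congr rfl; intro i _
    rw [mul_assoc, coeff_C_mul, mul_left_comm, Complex.re_ofReal_mul]; ring
  rw [e]; exact mul_nonneg hc (h x)

lemma Acc.inv {n : ℕ} {w : ℕ → ℝ} {H : PowerSeries ℂ} (h : Acc n w H)
    (h0 : constantCoeff H ≠ 0) : Acc n w H⁻¹ := by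
  intro x
  have := h (H⁻¹ * x)
  have e : H * (H⁻¹ * x) = x := by rw [← mul_assoc, PowerSeries.mul_inv_cancel _ h0, one_mul]
  rw [e] at this
  refine this.trans (le_of_eq ?_)
  apply sum_congr rfl; intro i _
  congr 1
  simp only [Complex.mul_re, Complex.conj_re, Complex.conj_im]
  ring

lemma Acc.congr {n : ℕ} {w : ℕ → ℝ} {H K : PowerSeries ℂ} (h : Acc n w H)
    (e : ∀ i ≤ n, coeff i H = coeff i K) : Acc n w K := by
  intro x
  refine (h x).trans (le_of_eq ?_)
  apply sum_congr rfl; intro i hi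
  have hi' : i ≤ n := by simpa [Nat.lt_succ_iff] using hi
  congr 3
  rw [PowerSeries.coeff_mul, PowerSeries.coeff_mul]
  apply sum_congr rfl; intro p hp
  have : p.1 + p.2 = i := by simpa using hp
  rw [e p.1 (by omega)]

/-- the square root step -/
lemma Acc.sqrt {n : ℕ} {w : ℕ → ℝ} : ∀ (k j : ℕ), 1 ≤ j → n + 1 ≤ j + k →
    ∀ (U V S : PowerSeries ℂ), (X ^ j : PowerSeries ℂ) ∣ U - V →
    constantCoeff U = 1 → constantCoeff V = 1 → constantCoeff S = 1 →
    U * V = S * S → Acc n w U → Acc n w V → Acc n w S := by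
  intro k
  induction k with
  | zero =>
    intro j hj hjn U V S hd hU hV hS h hAU _
    have h1 : (X ^ j : PowerSeries ℂ) ∣ (U - S) * (U + S) := by
      have : (U - S) * (U + S) = U * (U - V) := by linear_combination h
      rw [this]; exact Dvd.dvd.mul_left hd U
    have hu : IsUnit (U + S) := by
      rw [PowerSeries.isUnit_iff_constantCoeff, map_add, hU, hS]; norm_num
    have h2 : (X ^ j : PowerSeries ℂ) ∣ U - S := (IsUnit.dvd_mul_right hu).1 h1
    rw [PowerSeries.X_pow_dvd_iff] at h2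
    apply hAU.congr
    intro i hi
    have := h2 i (by omega)
    rw [map_sub] at this
    exact sub_eq_zero.1 this
  | succ k ih =>
    intro j hj hjn U V S hd hU hV hS h hAU hAV
    have hU0 : constantCoeff U ≠ 0 := by rw [hU]; norm_num
    have hV0 : constantCoeff V ≠ 0 := by rw [hV]; norm_num
    set U' : PowerSeries ℂ := C (((1/2 : ℝ)) : ℂ) * (U + V) with hU'
    set T : PowerSeries ℂ := C (((1/2 : ℝ)) : ℂ) * (U⁻¹ + V⁻¹) with hT
    have half : (C (((1/2 : ℝ)) : ℂ) : PowerSeries ℂ) * 2 = 1 := by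
      have : (2 : PowerSeries ℂ) = C (2:ℂ) := (map_ofNat C 2).symm
      rw [this, ← map_mul]; norm_num
    have hUi := PowerSeries.mul_inv_cancel _ hU0
    have hVi := PowerSeries.mul_inv_cancel _ hV0
    have cT : constantCoeff T = 1 := by
      rw [hT, map_mul, map_add, PowerSeries.constantCoeff_inv, PowerSeries.constantCoeff_inv, hU, hV,
        constantCoeff_C]; norm_num
    have cU' : constantCoeff U' = 1 := by
      rw [hU', map_mul, map_add, hU, hV, constantCoeff_C]; norm_num
    have cT0 : constantCoeff T ≠ 0 := by rw [cT]; norm_num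
    have hTi := PowerSeries.mul_inv_cancel _ cT0
    have e1 : U * V * T = U' := by
      rw [hT, hU']
      linear_combination (C (((1/2 : ℝ)) : ℂ)) * V * hUi + (C (((1/2 : ℝ)) : ℂ)) * U * hVi
    have e2 : U' * T⁻¹ = U * V := by
      linear_combination (-T⁻¹) * e1 + U * V * hTi
    have cV' : constantCoeff T⁻¹ = 1 := by rw [PowerSeries.constantCoeff_inv, cT, inv_one]
    have A1 : Acc n w U' := (hAU.add hAV).smul (by norm_num)
    have A2 : Acc n w T⁻¹ := (((hAU.inv hU0).add (hAV.inv hV0)).smul (by norm_num)).inv cT0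
    have hd2 : (X ^ (j + 1) : PowerSeries ℂ) ∣ U' - T⁻¹ := by
      have hu : IsUnit U' := by
        rw [PowerSeries.isUnit_iff_constantCoeff, cU']; norm_num
      apply (IsUnit.dvd_mul_right hu).1
      have : (U' - T⁻¹) * U' = (U - V) * (C (((1/2 : ℝ)) : ℂ) * C (((1/2 : ℝ)) : ℂ) * (U - V)) := by
        have e3 : U' * U' = C (((1/2 : ℝ)) : ℂ) * C (((1/2 : ℝ)) : ℂ) * (U + V) * (U + V) := by
          rw [hU']; ring
        have e4 : (C (((1/2 : ℝ)) : ℂ) * C (((1/2 : ℝ)) : ℂ) * 4 : PowerSeries ℂ) = 1 := by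
          linear_combination (C (((1/2 : ℝ)) : ℂ) * 2 + 1) * half
        linear_combination e3 - e2 + U * V * e4
      rw [this]
      have h5 : (X ^ (j + 1) : PowerSeries ℂ) ∣ X ^ j * X ^ j := by
        rw [← pow_add]; exact pow_dvd_pow _ (by omega)
      exact h5.trans (mul_dvd_mul hd (Dvd.dvd.mul_left hd _))
    exact ih (j+1) (by omega) (by omega) U' T⁻¹ S hd2 cU' cV' hS (by rw [e2, h]) A1 A2

/-- bound for the coefficient -/
lemma Acc.bound {α : ℝ} (hα : 0 < α) {n : ℕ} (hn : 1 ≤ n) {H : PowerSeries ℂ}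
    (h : Acc n (wt α n) H) (h0 : constantCoeff H = 1) : ‖coeff n H‖ ≤ 2 * gam α n := by
  by_cases hz : coeff n H = 0
  · rw [hz, norm_zero]; have := gam_pos hα n; positivity
  have hz' : 0 < ‖coeff n H‖ := norm_pos_iff.2 hz
  have hg := gam_pos hα n
  set b : ℂ := - ((gam α n / ‖coeff n H‖ : ℝ) : ℂ) * coeff n H with hb
  have key := h (1 + C b * X ^ n)
  have hn0 : n ≠ 0 := by omega
  have c0 : coeff 0 (1 + C b * X ^ n : PowerSeries ℂ) = 1 := by
    simp [hn0]
  have ci : ∀ i, i ≠ 0 → i ≠ n → coeff i (1 + C b * X ^ n : PowerSeries ℂ) = 0 := by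
    intro i h1 h2
    rw [map_add, PowerSeries.coeff_one, if_neg h1, coeff_C_mul, coeff_X_pow, if_neg h2]; simp
  have cn : coeff n (1 + C b * X ^ n : PowerSeries ℂ) = b := by
    rw [map_add, PowerSeries.coeff_one, if_neg hn0, coeff_C_mul, coeff_X_pow, if_pos rfl]; simp
  have d0 : coeff 0 (H * (1 + C b * X ^ n) : PowerSeries ℂ) = 1 := by
    rw [coeff_zero_eq_constantCoeff_apply, map_mul, h0]
    simp [hn0]
  have dn : coeff n (H * (1 + C b * X ^ n) : PowerSeries ℂ) = coeff n H + b := by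
    rw [mul_add, mul_one, map_add, mul_left_comm, coeff_C_mul, coeff_mul_X_pow', if_pos le_rfl,
      Nat.sub_self, coeff_zero_eq_constantCoeff_apply, h0, mul_one]
  have hs : ∑ i ∈ range (n+1), wt α n i * (conj (coeff i (1 + C b * X ^ n : PowerSeries ℂ)) *
      coeff i (H * (1 + C b * X ^ n))).re = wt α n 0 * 1 + wt α n n * (conj b * (coeff n H + b)).re := by
    rw [← Finset.sum_subset (s₁ := {0, n})]
    · rw [Finset.sum_pair (Ne.symm hn0), c0, cn, d0, dn]; simp
    · intro i hi
      simp only [Finset.mem_insert, Finset.mem_singleton] at hi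
      rcases hi with rfl | rfl <;> simp
    · intro i _ hi
      simp only [Finset.mem_insert, Finset.mem_singleton, not_or] at hi
      rw [ci i hi.1 hi.2]; simp
  rw [hs] at key
  have hre : (conj b * (coeff n H + b)).re = - (gam α n * ‖coeff n H‖) + gam α n ^ 2 := by
    have hbn : ‖b‖ = gam α n := by
      rw [hb, norm_mul, norm_neg, Complex.norm_real, Real.norm_of_nonneg (by positivity)]
      field_simp
    have h1 : conj b * coeff n H = ((-(gam α n * ‖coeff n H‖) : ℝ) : ℂ) := by
      rw [hb, map_mul, map_neg, Complex.conj_ofReal, mul_assoc, ← Complex.normSq_eq_conj_mul_self,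
        Complex.normSq_eq_norm_sq]
      push_cast
      have : (‖coeff n H‖ : ℂ) ≠ 0 := by exact_mod_cast hz'.ne'
      field_simp
    have h2 : conj b * b = ((gam α n ^ 2 : ℝ) : ℂ) := by
      rw [← Complex.normSq_eq_conj_mul_self, Complex.normSq_eq_norm_sq, hbn]
    rw [mul_add, h1, h2, Complex.add_re, Complex.ofReal_re, Complex.ofReal_re]
  rw [hre] at key
  have w0 : wt α n 0 = gam α n := by rw [wt, gam_zero hα, Nat.sub_zero, div_one]
  have wn : wt α n n = 1 / gam α n := by rw [wt, Nat.sub_self, gam_zero hα]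
  rw [w0, wn] at key
  have e3 : gam α n * 1 + 1 / gam α n * (-(gam α n * ‖coeff n H‖) + gam α n ^ 2) =
      2 * gam α n - ‖coeff n H‖ := by field_simp; ring
  rw [e3] at key
  linarith

end Pool.Agent.R194.Baz
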