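import Mathlib

/-!
Formal power series part of the coefficient theorem for the Bazilevic classes B_1(alpha).
-/
namespace Pool.Agent.R194.Baz

open PowerSeries Finset

/-- `gam α m = α / (m + α)`. -/
noncomputable def gam (α : ℝ) (m : ℕ) : ℝ := α / (m + α)

lemma gam_pos {α : ℝ} (hα : 0 < α) (m : ℕ) : 0 < gam α m := by
  unfold gam; positivity

lemma gam_zero {α : ℝ} (hα : 0 < α) : gam α 0 = 1 := by
  unfold gam; simp [hα.ne']

lemma gam_le_one {α : ℝ} (hα : 0 < α) (m : ℕ) : gam α m ≤ 1 := by
  unfold gam; rw [div_le_one (by positivity)]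
  have : (0:ℝ) ≤ m := Nat.cast_nonneg m
  linarith

/-- log-convexity -/
lemma gam_ratio {α : ℝ} (hα : 0 < α) {j n : ℕ} (h : j ≤ n) :
    gam α (j+1) * gam α n ≤ gam α j * gam α (n+1) := by
  unfold gam
  have hj : (j:ℝ) ≤ n := by exact_mod_cast h
  have h0 : (0:ℝ) ≤ j := Nat.cast_nonneg j
  push_cast
  rw [div_mul_div_comm, div_mul_div_comm, div_le_div_iff₀ (by positivity) (by positivity)]
  have : (0:ℝ) ≤ α*α := by positivity
  nlinarith [mul_le_mul_of_nonneg_left (show ((j:ℝ)+α)*(n+1+α) ≤ (j+1+α)*(n+α) by nlinarith) this]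

/-- generating series of `gam` -/
noncomputable def Gam (α : ℝ) : PowerSeries ℝ := PowerSeries.mk (gam α)

/-- Kaluza series -/
noncomputable def kap (α : ℝ) : PowerSeries ℝ := 1 - (Gam α)⁻¹

lemma Gam_const {α : ℝ} (hα : 0 < α) : constantCoeff (Gam α) = 1 := by
  rw [← coeff_zero_eq_constantCoeff_apply, Gam, coeff_mk, gam_zero hα]

lemma Gam_mul {α : ℝ} (hα : 0 < α) : (1 - kap α) * Gam α = 1 := by
  have h : constantCoeff (Gam α) ≠ 0 := by rw [Gam_const hα]; norm_num
  unfold kap
  rw [sub_sub_cancel, PowerSeries.inv_mul_cancel _ h]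

lemma kap_mul {α : ℝ} (hα : 0 < α) : kap α * Gam α = Gam α - 1 := by
  have := Gam_mul hα
  linear_combination -this

lemma kap_zero {α : ℝ} (hα : 0 < α) : coeff 0 (kap α) = 0 := by
  have h := congrArg constantCoeff (kap_mul hα)
  rw [map_mul, map_sub, Gam_const hα] at h
  rw [coeff_zero_eq_constantCoeff_apply]
  simpa using h

lemma kap_sum {α : ℝ} (hα : 0 < α) {n : ℕ} (hn : 1 ≤ n) :
    ∑ i ∈ range (n+1), coeff i (kap α) * gam α (n - i) = gam α n := by
  have h := congrArg (coeff n) (kap_mul hα)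
  rw [PowerSeries.coeff_mul, Finset.Nat.sum_antidiagonal_eq_sum_range_succ_mk] at h
  rw [map_sub, PowerSeries.coeff_one, if_neg (by omega), sub_zero] at h
  simpa [Gam] using h

lemma kap_sum_le {α : ℝ} (hα : 0 < α) (n : ℕ) :
    ∑ i ∈ range (n+1), coeff i (kap α) * gam α (n - i) ≤ gam α n := by
  rcases Nat.eq_zero_or_pos n with h | h
  · subst h
    have := kap_zero hα
    simp only [zero_add, range_one, sum_singleton, this, zero_mul]
    exact (gam_pos hα 0).le
  · exact (kap_sum hα h).le

lemma kap_nonneg {α : ℝ} (hα : 0 < α) : ∀ n, 0 ≤ coeff n (kap α) := by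
  intro n
  induction n using Nat.strong_induction_on with
  | _ n ih =>
    rcases Nat.eq_zero_or_pos n with h | h
    · subst h; exact (kap_zero hα).ge
    obtain ⟨m, rfl⟩ : ∃ m, n = m + 1 := ⟨n-1, by omega⟩
    rcases Nat.eq_zero_or_pos m with h1 | h1
    · subst h1
      have := kap_sum hα (n := 1) le_rfl
      rw [sum_range_succ, sum_range_one] at this
      rw [kap_zero hα, zero_mul, zero_add, Nat.sub_self, gam_zero hα, mul_one] at this
      rw [zero_add, this]; exact (gam_pos hα 1).le
    · have e1 := kap_sum hα (n := m+1) (by omega)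
      rw [sum_range_succ, Nat.sub_self, gam_zero hα, mul_one] at e1
      have e2 := kap_sum hα (n := m) h1
      have hle : (∑ i ∈ range (m+1), coeff i (kap α) * gam α (m + 1 - i)) * gam α m ≤
          (∑ i ∈ range (m+1), coeff i (kap α) * gam α (m - i)) * gam α (m+1) := by
        rw [sum_mul, sum_mul]
        apply sum_le_sum
        intro i hi
        have hi' : i ≤ m := by simpa [Nat.lt_succ_iff] using hi
        have h3 := gam_ratio hα (j := m - i) (n := m) (by omega)
        have h4 : m + 1 - i = m - i + 1 := by omega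
        rw [h4, mul_assoc, mul_assoc]
        exact mul_le_mul_of_nonneg_left h3 (ih i (by omega))
      rw [e2] at hle
      have hg := gam_pos hα m
      have h5 : 0 ≤ coeff (m+1) (kap α) * gam α m := by
        have : coeff (m+1) (kap α) = gam α (m+1) - ∑ i ∈ range (m+1), coeff i (kap α) * gam α (m + 1 - i) := by
          linarith
        rw [this, sub_mul]; nlinarith
      exact nonneg_of_mul_nonneg_left h5 hg

/-- the weights -/
noncomputable def wt (α : ℝ) (n i : ℕ) : ℝ := gam α (n - i) / gam α i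

lemma wt_nonneg {α : ℝ} (hα : 0 < α) (n i : ℕ) : 0 ≤ wt α n i :=
  div_nonneg (gam_pos hα _).le (gam_pos hα _).le

/-- the Schur test: multiplication by `kap` is a contraction in the weighted space -/
lemma schur {α : ℝ} (hα : 0 < α) (n : ℕ) (x : ℕ → ℂ) :
    ∑ i ∈ range (n+1), wt α n i *
      ‖∑ j ∈ range (i+1), ((coeff (i-j) (kap α) : ℝ) : ℂ) * x j‖^2 ≤
    ∑ i ∈ range (n+1), wt α n i * ‖x i‖^2 := by
  have hk := kap_nonneg hα
  -- row bound
  have hrow : ∀ i, ‖∑ j ∈ range (i+1), ((coeff (i-j) (kap α) : ℝ) : ℂ) * x j‖^2 ≤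
      gam α i * ∑ j ∈ range (i+1), coeff (i-j) (kap α) * (‖x j‖^2 / gam α j) := by
    intro i
    have h1 : ‖∑ j ∈ range (i+1), ((coeff (i-j) (kap α) : ℝ) : ℂ) * x j‖ ≤
        ∑ j ∈ range (i+1), coeff (i-j) (kap α) * ‖x j‖ := by
      refine (norm_sum_le _ _).trans (le_of_eq ?_)
      apply sum_congr rfl; intro j _
      rw [norm_mul, Complex.norm_real, Real.norm_of_nonneg (hk _)]
    have h2 : (∑ j ∈ range (i+1), coeff (i-j) (kap α) * ‖x j‖)^2 ≤
        (∑ j ∈ range (i+1), coeff (i-j) (kap α) * gam α j) *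
        ∑ j ∈ range (i+1), coeff (i-j) (kap α) * (‖x j‖^2 / gam α j) := by
      apply Finset.sum_sq_le_sum_mul_sum_of_sq_le_mul
      · intro j _; exact mul_nonneg (hk _) (gam_pos hα _).le
      · intro j _; exact mul_nonneg (hk _) (div_nonneg (by positivity) (gam_pos hα _).le)
      · intro j _
        have := (gam_pos hα j).ne'
        apply le_of_eq
        field_simp
    have h3 : ∑ j ∈ range (i+1), coeff (i-j) (kap α) * gam α j ≤ gam α i := by
      have := kap_sum_le hα i
      rw [← Finset.sum_range_reflect] at this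
      refine le_trans (le_of_eq ?_) this
      apply sum_congr rfl; intro j hj
      have hj' : j ≤ i := by simpa [Nat.lt_succ_iff] using hj
      rw [show i + 1 - 1 - j = i - j by omega, show i - (i - j) = j by omega]
    have h4 : 0 ≤ ∑ j ∈ range (i+1), coeff (i-j) (kap α) * (‖x j‖^2 / gam α j) :=
      sum_nonneg fun j _ => mul_nonneg (hk _) (div_nonneg (by positivity) (gam_pos hα _).le)
    calc _ ≤ (∑ j ∈ range (i+1), coeff (i-j) (kap α) * ‖x j‖)^2 :=
          pow_le_pow_left₀ (norm_nonneg _) h1 2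
      _ ≤ _ := h2
      _ ≤ _ := mul_le_mul_of_nonneg_right h3 h4
  calc _ ≤ ∑ i ∈ range (n+1), gam α (n-i) *
        ∑ j ∈ range (i+1), coeff (i-j) (kap α) * (‖x j‖^2 / gam α j) := by
        apply sum_le_sum; intro i _
        have hg := gam_pos hα i
        calc _ ≤ wt α n i * (gam α i * ∑ j ∈ range (i+1), coeff (i-j) (kap α) * (‖x j‖^2 / gam α j)) :=
              mul_le_mul_of_nonneg_left (hrow i) (wt_nonneg hα n i)
          _ = _ := by rw [wt]; field_simp
    _ = ∑ i ∈ Ico 0 (n+1), ∑ j ∈ Ico 0 (i+1),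
          (gam α (n-i) * (coeff (i-j) (kap α) * (‖x j‖^2 / gam α j))) := by
        simp only [mul_sum, Finset.range_eq_Ico]
    _ = ∑ j ∈ Ico 0 (n+1), ∑ i ∈ Ico j (n+1),
          (gam α (n-i) * (coeff (i-j) (kap α) * (‖x j‖^2 / gam α j))) := by
        rw [Finset.sum_Ico_Ico_comm 0 (n+1) (fun j i => (gam α (n-i) * (coeff (i-j) (kap α) * (‖x j‖^2 / gam α j))))]
    _ ≤ ∑ j ∈ range (n+1), wt α n j * ‖x j‖^2 := by
        rw [← Finset.range_eq_Ico]
        apply sum_le_sum; intro j hj
        have hj' : j ≤ n := by simpa [Nat.lt_succ_iff] using hj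
        have hg := gam_pos hα j
        rw [Finset.sum_Ico_eq_sum_range]
        have h6 : ∑ k ∈ range (n + 1 - j),
            (gam α (n-(j+k)) * (coeff (j+k-j) (kap α) * (‖x j‖^2 / gam α j))) =
            (∑ k ∈ range (n - j + 1), coeff k (kap α) * gam α (n - j - k)) * (‖x j‖^2 / gam α j) := by
          rw [sum_mul, show n + 1 - j = n - j + 1 by omega]
          apply sum_congr rfl; intro k _
          rw [show j + k - j = k by omega, show n - (j + k) = n - j - k by omega]; ring
        rw [h6]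
        calc _ ≤ gam α (n-j) * (‖x j‖^2 / gam α j) :=
              mul_le_mul_of_nonneg_right (kap_sum_le hα (n-j)) (div_nonneg (by positivity) hg.le)
          _ = _ := by rw [wt]; field_simp

end Pool.Agent.R194.Baz
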