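import Pool.Agent.R194.Baz.Maj

/-!
The majorisation theorem for powers.
-/
namespace Pool.Agent.R194.Baz

open PowerSeries Finset ComplexConjugate MeasureTheory

lemma coeff_X_deriv (E : PowerSeries ℂ) (n : ℕ) :
    coeff n (X * derivative ℂ E) = (n:ℂ) * coeff n E := by
  rcases Nat.eq_zero_or_pos n with h | h
  · subst h; simp
  · obtain ⟨k, rfl⟩ : ∃ k, n = k + 1 := ⟨n-1, by omega⟩
    rw [coeff_succ_X_mul, coeff_derivative]; push_cast; ring

/-- the auxiliary nonnegative series -/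
noncomputable def RR (α : ℝ) (F : ℝ → PowerSeries ℂ) (θ : ℝ) : PowerSeries ℂ :=
  F θ * (1 + PowerSeries.C ((1/α : ℝ):ℂ) * (X * D0 α))

section
variable {α : ℝ} {F : ℝ → PowerSeries ℂ}

lemma F_nn (hα : 0 < α) (hF : Fam F)
    (hFD : ∀ s, derivative ℂ (F s) = PowerSeries.C (s:ℂ) * (D0 α * F s)) {s : ℝ} (hs : 0 ≤ s) :
    NN (F s) := NN.ode hs (D0_nn hα) (hF.c0 s) (hFD s)

lemma RR_nn (hα : 0 < α) (hF : Fam F)
    (hFD : ∀ s, derivative ℂ (F s) = PowerSeries.C (s:ℂ) * (D0 α * F s)) {s : ℝ} (hs : 0 ≤ s) :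
    NN (RR α F s) :=
  (F_nn hα hF hFD hs).mul (NN.one.add ((NN.C (by positivity)).mul (NN.X.mul (D0_nn hα))))

lemma G0_P0 (hα : 0 < α) :
    G0 α * (1 + PowerSeries.C ((1/α : ℝ):ℂ) * (X * D0 α)) = P0 := by
  have h1 := P0_rel hα
  have h2 := D0_mul hα
  have hC : (PowerSeries.C (α:ℂ) : PowerSeries ℂ) * PowerSeries.C ((1/α : ℝ):ℂ) = 1 := by
    rw [← map_mul, ← Complex.ofReal_mul, mul_one_div_cancel hα.ne']; simp
  have hC0 : (PowerSeries.C (α:ℂ) : PowerSeries ℂ) ≠ 0 := by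
    intro h; rw [h, zero_mul] at hC; exact zero_ne_one hC
  apply mul_left_cancel₀ hC0
  linear_combination (G0 α * X * D0 α) * hC + X * h2 - h1

lemma RR_mul (hα : 0 < α) (hF : Fam F) (hF1 : F 1 = G0 α) (θ : ℝ) :
    RR α F θ * F (1 - θ) = P0 := by
  have h := hF.add θ (1 - θ)
  rw [add_sub_cancel, hF1] at h
  unfold RR
  linear_combination (-(1 + PowerSeries.C ((1/α : ℝ):ℂ) * (X * D0 α))) * h + G0_P0 hα

lemma RR_G0 (hα : 0 < α) (θ : ℝ) : RR α F θ * G0 α = P0 * F θ := by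
  unfold RR
  linear_combination (F θ) * G0_P0 hα

lemma F_ode (hα : 0 < α) (hF : Fam F) (hF1 : F 1 = G0 α)
    (hFD : ∀ s, derivative ℂ (F s) = PowerSeries.C (s:ℂ) * (D0 α * F s)) (θ : ℝ) :
    X * derivative ℂ (F (1 + θ)) + PowerSeries.C (((1+θ)*α : ℝ) : ℂ) * F (1 + θ) =
      PowerSeries.C (((1+θ)*α : ℝ) : ℂ) * (P0 * F θ) := by
  have h1 := hFD (1+θ)
  have h2 := hF.add 1 θ
  rw [hF1] at h2
  have h3 := D0_mul hα
  have h4 := P0_rel hα
  have h5 : (PowerSeries.C (((1+θ)*α : ℝ) : ℂ) : PowerSeries ℂ) =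
      PowerSeries.C ((1+θ : ℝ):ℂ) * PowerSeries.C (α:ℂ) := by
    rw [← map_mul, ← Complex.ofReal_mul]
  rw [h1, h5, h2]
  linear_combination (PowerSeries.C ((1+θ : ℝ):ℂ) * X * F θ) * h3 -
    (PowerSeries.C ((1+θ : ℝ):ℂ) * F θ) * h4

end

section measure
variable {Ω : Type*} [MeasurableSpace Ω] {ν : Measure Ω} [IsProbabilityMeasure ν] {u : Ω → ℂ}

theorem core1 {α : ℝ} (hα : 0 < α) (hum : Measurable u) (hu : ∀ ω, ‖u ω‖ = 1)
    {E F : ℝ → PowerSeries ℂ} (hE : Fam E) (hF : Fam F)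
    (hE1 : ∀ m, coeff m (E 1) = coeff m (G0 α) * ∫ ω, u ω ^ m ∂ν)
    {p : PowerSeries ℂ} (hp : ∀ m, coeff m p = coeff m P0 * ∫ ω, u ω ^ m ∂ν)
    (hODE : ∀ θ : ℝ, X * derivative ℂ (E (1 + θ)) + PowerSeries.C (((1+θ)*α : ℝ) : ℂ) * E (1 + θ) =
      PowerSeries.C (((1+θ)*α : ℝ) : ℂ) * (p * E θ))
    (hF1 : F 1 = G0 α)
    (hFD : ∀ s, derivative ℂ (F s) = PowerSeries.C (s:ℂ) * (D0 α * F s))
    {θ : ℝ} (hθ0 : 0 ≤ θ) (hθ1 : θ ≤ 1) (n : ℕ) :
    ‖coeff n (E (1 + θ))‖ ≤ ‖coeff n (F (1 + θ))‖ := by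
  -- pointwise bound
  have hpt : ∀ ω, ‖coeff n (PowerSeries.rescale (u ω) P0 * E θ)‖ ≤ ‖coeff n (P0 * F θ)‖ := by
    intro ω
    have hsplit : PowerSeries.rescale (u ω) P0 * E θ =
        PowerSeries.rescale (u ω) (RR α F θ) * (E θ * PowerSeries.rescale (u ω) (F (1 - θ))) := by
      rw [← RR_mul hα hF hF1 θ, map_mul]; ring
    rw [hsplit, ← RR_G0 hα θ]
    apply maj_mul (RR_nn hα hF hFD hθ0) (G0_nn hα)
    · intro m
      rw [coeff_rescale, norm_mul, norm_pow, hu, one_pow, one_mul]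
    · intro m
      have hc0 : constantCoeff (E θ * PowerSeries.rescale (u ω) (F (1 - θ))) = 1 := by
        rw [map_mul, hE.c0, (hF.rescale (u ω)).c0, one_mul]
      rcases Nat.eq_zero_or_pos m with h | h
      · subst h
        rw [coeff_zero_eq_constantCoeff_apply, coeff_zero_eq_constantCoeff_apply, hc0, const_G0 hα]
      · have h1 : Acc m (wt α m) (E 1) := acc_int hum hu (acc_G0 hα m) hE1
        have h2 : Acc m (wt α m) (PowerSeries.rescale (u ω) (F 1)) := by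
          rw [hF1]; exact (acc_G0 hα m).rescale (hu ω)
        have h3 := Fam.interp hE (hF.rescale (u ω)) h1 h2 hθ0 hθ1
        have h4 := h3.bound hα h hc0
        rw [coeff_G0 α hα, if_neg (by omega), Complex.norm_real, Real.norm_of_nonneg]
        · exact h4
        · have := gam_pos hα m; positivity
  have hprod : ‖coeff n (p * E θ)‖ ≤ ‖coeff n (P0 * F θ)‖ := by
    obtain ⟨hi, he⟩ := coeff_int hum hu hp (E θ) n
    rw [he]
    refine (norm_integral_le_of_norm_le_const (C := ‖coeff n (P0 * F θ)‖) ?_).trans ?_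
    · filter_upwards with ω using hpt ω
    · simp
  have e1 := congrArg (coeff n) (hODE θ)
  have e2 := congrArg (coeff n) (F_ode hα hF hF1 hFD θ)
  rw [map_add, coeff_X_deriv, coeff_C_mul, coeff_C_mul, ← add_mul] at e1 e2
  have hpos : (0:ℝ) < n + (1+θ)*α := by
    have : (0:ℝ) < (1+θ)*α := by positivity
    positivity
  have hcast : ((n:ℂ) + (((1+θ)*α : ℝ) : ℂ)) = ((n + (1+θ)*α : ℝ) : ℂ) := by push_cast; ring
  rw [hcast] at e1 e2
  have f1 := congrArg norm e1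
  have f2 := congrArg norm e2
  rw [norm_mul, norm_mul, Complex.norm_real, Real.norm_of_nonneg hpos.le, Complex.norm_real] at f1 f2
  have : (n + (1+θ)*α) * ‖coeff n (E (1 + θ))‖ ≤ (n + (1+θ)*α) * ‖coeff n (F (1 + θ))‖ := by
    rw [f1, f2]; exact mul_le_mul_of_nonneg_left hprod (norm_nonneg _)
  exact le_of_mul_le_mul_left this hpos

theorem core {α : ℝ} (hα : 0 < α) (hum : Measurable u) (hu : ∀ ω, ‖u ω‖ = 1)
    {E F : ℝ → PowerSeries ℂ} (hE : Fam E) (hF : Fam F)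
    (hE1 : ∀ m, coeff m (E 1) = coeff m (G0 α) * ∫ ω, u ω ^ m ∂ν)
    {p : PowerSeries ℂ} (hp : ∀ m, coeff m p = coeff m P0 * ∫ ω, u ω ^ m ∂ν)
    (hODE : ∀ θ : ℝ, X * derivative ℂ (E (1 + θ)) + PowerSeries.C (((1+θ)*α : ℝ) : ℂ) * E (1 + θ) =
      PowerSeries.C (((1+θ)*α : ℝ) : ℂ) * (p * E θ))
    (hF1 : F 1 = G0 α)
    (hFD : ∀ s, derivative ℂ (F s) = PowerSeries.C (s:ℂ) * (D0 α * F s))
    {t : ℝ} (ht : 1 ≤ t) (n : ℕ) :
    ‖coeff n (E t)‖ ≤ ‖coeff n (F t)‖ := by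
  have hE1' : ∀ m, ‖coeff m (E 1)‖ ≤ ‖coeff m (F 1)‖ := by
    intro m
    have := core1 hα hum hu hE hF hE1 hp hODE hF1 hFD le_rfl zero_le_one m
    simpa using this
  have step : ∀ k : ℕ, ∀ θ : ℝ, 0 ≤ θ → θ ≤ 1 → ∀ m, ‖coeff m (E (k + (1 + θ)))‖ ≤
      ‖coeff m (F (k + (1 + θ)))‖ := by
    intro k
    induction k with
    | zero =>
      intro θ h0 h1 m
      simp only [Nat.cast_zero, zero_add]
      exact core1 hα hum hu hE hF hE1 hp hODE hF1 hFD h0 h1 m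
    | succ k ih =>
      intro θ h0 h1 m
      have e : ((k+1 : ℕ) : ℝ) + (1 + θ) = 1 + (k + (1 + θ)) := by push_cast; ring
      rw [e, hE.add, hF.add]
      exact maj_mul (F_nn hα hF hFD zero_le_one) (F_nn hα hF hFD (by positivity)) hE1'
        (ih θ h0 h1) m
  have hk := Nat.floor_le (show 0 ≤ t - 1 by linarith)
  have hk2 := Nat.lt_floor_add_one (t - 1)
  have := step ⌊t-1⌋₊ (t - 1 - ⌊t-1⌋₊) (by linarith) (by linarith) n
  rwa [show ((⌊t-1⌋₊ : ℕ) : ℝ) + (1 + (t - 1 - ⌊t-1⌋₊)) = t by ring] at this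

end measure

end Pool.Agent.R194.Baz
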