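import Pool.Agent.R194.Baz.Her

/-!
The extremal function.
-/
namespace Pool.Agent.R194.Baz

open PowerSeries Finset ComplexConjugate MeasureTheory Topology Metric

section
variable {c : ℕ → ℂ}

lemma sum_hasFPS (hc : ∀ n, ‖c n‖ ≤ 2) :
    HasFPowerSeriesOnBall (FormalMultilinearSeries.ofScalars ℂ c).sum
      (FormalMultilinearSeries.ofScalars ℂ c) 0 1 := by
  have h1 : (1 : ENNReal) ≤ (FormalMultilinearSeries.ofScalars ℂ c).radius := by
    have := (FormalMultilinearSeries.ofScalars ℂ c).le_radius_of_bound 2 (r := 1) (fun n => by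
      rw [FormalMultilinearSeries.ofScalars_norm]; simpa using hc n)
    simpa using this
  exact ((FormalMultilinearSeries.ofScalars ℂ c).hasFPowerSeriesOnBall
    (lt_of_lt_of_le one_pos h1)).mono one_pos h1

lemma sum_diff (hc : ∀ n, ‖c n‖ ≤ 2) :
    DifferentiableOn ℂ (FormalMultilinearSeries.ofScalars ℂ c).sum (ball 0 1) := by
  have h := (sum_hasFPS hc).differentiableOn
  have e : Metric.eball (0:ℂ) 1 = ball 0 1 := by
    have := Metric.eball_coe (x := (0:ℂ)) (ε := 1)
    simpa using this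
  rwa [e] at h

lemma tay_sum (hc : ∀ n, ‖c n‖ ≤ 2) :
    tay (FormalMultilinearSeries.ofScalars ℂ c).sum = PowerSeries.mk c := by
  have h := (sum_hasFPS hc).hasFPowerSeriesAt
  have h2 := AnalyticAt.hasFPowerSeriesAt h.analyticAt
  have h3 := h.eq_formalMultilinearSeries h2
  ext n
  have h4 := congrArg (fun q => FormalMultilinearSeries.coeff q n) h3
  simp only [FormalMultilinearSeries.coeff_ofScalars] at h4
  rw [coeff_tay, coeff_mk, h4]

lemma sum_tsum (hc : ∀ n, ‖c n‖ ≤ 2) {z : ℂ} (hz : z ∈ ball (0:ℂ) 1) :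
    (FormalMultilinearSeries.ofScalars ℂ c).sum z = c 0 + ∑' n, c (n+1) * z^(n+1) := by
  have h1 : (FormalMultilinearSeries.ofScalars ℂ c).sum z = ∑' n, c n * z^n := by
    have := FormalMultilinearSeries.ofScalars_sum_eq c z
    simpa [FormalMultilinearSeries.ofScalarsSum] using this
  have hz' : ‖z‖ < 1 := by simpa using hz
  have hs : Summable fun n => c n * z^n := by
    apply Summable.of_norm_bounded (g := fun n => 2 * ‖z‖^n)
      ((summable_geometric_of_lt_one (norm_nonneg _) hz').mul_left 2)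
    intro n
    rw [norm_mul, norm_pow]
    exact mul_le_mul_of_nonneg_right (hc n) (by positivity)
  rw [h1, hs.tsum_eq_zero_add, pow_zero, mul_one]

end

/-- the function `1 + ∑ 2α/(n+α) z^n` -/
noncomputable def Gf (α : ℝ) (z : ℂ) : ℂ := 1 + ∑' n : ℕ, ((2 * α / (n + 1 + α) : ℝ) : ℂ) * z ^ (n + 1)

section
variable {α : ℝ}

lemma c_bound (hα : 0 < α) (n : ℕ) : ‖coeff n (G0 α)‖ ≤ 2 := by
  rw [coeff_G0 α hα]
  split_ifs
  · simp
  · have h1 := gam_le_one hα n
    have h2 := gam_pos hα n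
    rw [Complex.norm_real, Real.norm_of_nonneg (by positivity)]
    linarith

lemma Gf_eq (hα : 0 < α) {z : ℂ} (hz : z ∈ ball (0:ℂ) 1) :
    Gf α z = (FormalMultilinearSeries.ofScalars ℂ (fun n => coeff n (G0 α))).sum z := by
  rw [sum_tsum (c_bound hα) hz, Gf]
  congr 1
  · rw [coeff_G0 α hα, if_pos rfl]
  · congr 1; funext n
    rw [coeff_G0 α hα, if_neg (by omega), gam]
    congr 2
    push_cast; ring

lemma Gf_diff (hα : 0 < α) : DifferentiableOn ℂ (Gf α) (ball 0 1) :=
  (sum_diff (c_bound hα)).congr fun z hz => Gf_eq hα hz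

lemma Gf_tay (hα : 0 < α) : tay (Gf α) = G0 α := by
  rw [tay_congr_ball (fun z hz => Gf_eq hα hz), tay_sum (c_bound hα)]
  ext n; simp

lemma Gf_an (hα : 0 < α) : AnalyticAt ℂ (Gf α) 0 :=
  (Gf_diff hα).analyticAt (ball_mem_nhds _ one_pos)

lemma one_sub_ne {z : ℂ} (hz : z ∈ ball (0:ℂ) 1) : 1 - z ≠ 0 := by
  intro h
  have : z = 1 := by linear_combination -h
  rw [this] at hz; simp at hz

lemma p0_diff : DifferentiableOn ℂ (fun z : ℂ => (1 + z) / (1 - z)) (ball 0 1) := by
  apply DifferentiableOn.div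
  · exact (differentiable_const _).add differentiable_id |>.differentiableOn
  · exact (differentiable_const _).sub differentiable_id |>.differentiableOn
  · intro z hz; exact one_sub_ne hz

lemma tay_p0 : tay (fun z : ℂ => (1 + z) / (1 - z)) = P0 := by
  have han : AnalyticAt ℂ (fun z : ℂ => (1 + z) / (1 - z)) 0 :=
    p0_diff.analyticAt (ball_mem_nhds _ one_pos)
  have h1 : AnalyticAt ℂ (fun z : ℂ => 1 - z) 0 := analyticAt_const.sub analyticAt_id
  have e1 : tay (fun z : ℂ => (1 - z) * ((1 + z) / (1 - z))) = (1 - X) * tay (fun z : ℂ => (1 + z) / (1 - z)) := by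
    rw [tay_mul h1 han]
    congr 1
    have : tay (fun z : ℂ => 1 + (-1) * z) = 1 - X := by
      rw [tay_add (f := fun _ => 1) (g := fun z => (-1) * z) analyticAt_const
        (analyticAt_const.mul analyticAt_id), tay_const,
        tay_const_mul (f := fun z => z) (-1) analyticAt_id, tay_id]
      simp [sub_eq_add_neg]
    rw [← this]; congr 1; funext z; ring
  have e2 : tay (fun z : ℂ => (1 - z) * ((1 + z) / (1 - z))) = 1 + X := by
    rw [tay_congr_ball (g := fun z => 1 + z) (fun z hz => by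
      have := one_sub_ne hz
      field_simp), tay_add (f := fun _ => 1) (g := fun z => z) analyticAt_const analyticAt_id,
      tay_const, tay_id]
    simp
  have e3 : (1 - X) * P0 = 1 + X := by
    ext n
    rw [sub_mul, one_mul, map_sub, map_add, PowerSeries.coeff_one, coeff_X]
    rcases n with _ | _ | n
    · simp [P0]
    · rw [coeff_succ_X_mul]; simp [P0]; norm_num
    · rw [coeff_succ_X_mul]; simp [P0]
  have hX : (1 - X : PowerSeries ℂ) ≠ 0 := by
    intro h
    have := congrArg (coeff 0) h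
    simp at this
  apply mul_left_cancel₀ hX
  rw [← e1, e2, e3]

/-- the differential equation of `Gf` -/
lemma Gf_ode (hα : 0 < α) {z : ℂ} (hz : z ∈ ball (0:ℂ) 1) :
    (α:ℂ) * Gf α z + z * deriv (Gf α) z = α * ((1 + z) / (1 - z)) := by
  have hd : DifferentiableOn ℂ (deriv (Gf α)) (ball 0 1) := (Gf_diff hα).deriv isOpen_ball
  have h1 : DifferentiableOn ℂ (fun z => (α:ℂ) * Gf α z + z * deriv (Gf α) z) (ball 0 1) :=
    ((Gf_diff hα).const_mul _).add (differentiableOn_id.mul hd)
  refine tay_inj h1 (p0_diff.const_mul _) ?_ z hz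
  have han := Gf_an hα
  rw [tay_add (f := fun z => (α:ℂ) * Gf α z) (g := fun z => z * deriv (Gf α) z)
      (analyticAt_const.mul han) (analyticAt_id.mul han.deriv),
    tay_const_mul _ han, tay_mul (f := fun z => z) analyticAt_id han.deriv, tay_id, ← tay_deriv, Gf_tay hα,
    tay_const_mul (f := fun z : ℂ => (1 + z) / (1 - z)) _
      (p0_diff.analyticAt (ball_mem_nhds _ one_pos)), tay_p0, P0_rel hα]

lemma p0_re {z : ℂ} (hz : z ∈ ball (0:ℂ) 1) : 0 < ((1 + z) / (1 - z)).re := by
  have hz' : ‖z‖ < 1 := by simpa using hz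
  have hne := one_sub_ne hz
  have hn : 0 < Complex.normSq (1 - z) := Complex.normSq_pos.2 hne
  rw [Complex.div_re, ← add_div]
  apply div_pos _ hn
  have h2 : z.re * z.re + z.im * z.im < 1 := by
    have := Complex.sq_norm z
    rw [Complex.normSq_apply] at this
    nlinarith [norm_nonneg z]
  simp only [Complex.add_re, Complex.one_re, Complex.sub_re, Complex.add_im, Complex.one_im,
    Complex.sub_im]
  nlinarith

lemma Gf_zero (hα : 0 < α) : Gf α 0 = 1 := by
  unfold Gf; simp

lemma Gf_re (hα : 0 < α) {z : ℂ} (hz : z ∈ ball (0:ℂ) 1) : 0 < (Gf α z).re := by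
  have hz' : ‖z‖ < 1 := by simpa using hz
  have hmem : ∀ u ∈ Set.Icc (0:ℝ) 1, (u:ℂ) * z ∈ ball (0:ℂ) 1 := by
    intro u hu
    rw [mem_ball_zero_iff, norm_mul, Complex.norm_real, Real.norm_of_nonneg hu.1]
    nlinarith [hu.1, hu.2, norm_nonneg z]
  set φ : ℝ → ℝ := fun u => u ^ α * (Gf α ((u:ℂ) * z)).re with hφ
  have hcont : ContinuousOn φ (Set.Icc 0 1) := by
    apply ContinuousOn.mul
    · intro u hu
      exact (Real.continuousAt_rpow_const u α (Or.inr hα.le)).continuousWithinAt
    · apply Complex.continuous_re.comp_continuousOn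
      apply (Gf_diff hα).continuousOn.comp
      · fun_prop
      · intro u hu; exact hmem u hu
  have hderiv : ∀ u ∈ interior (Set.Icc (0:ℝ) 1), 0 < deriv φ u := by
    intro u hu
    rw [interior_Icc] at hu
    have hm := hmem u ⟨hu.1.le, hu.2.le⟩
    have hG : HasDerivAt (Gf α) (deriv (Gf α) ((u:ℂ) * z)) ((u:ℂ) * z) :=
      ((Gf_diff hα).differentiableAt (isOpen_ball.mem_nhds hm)).hasDerivAt
    have h1 : HasDerivAt (fun u : ℝ => (u:ℂ) * z) z u := by
      simpa using (Complex.ofRealCLM.hasDerivAt (x := u)).mul_const z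
    have h2 : HasDerivAt (Gf α ∘ fun u : ℝ => (u:ℂ) * z) (deriv (Gf α) ((u:ℂ) * z) * z) u :=
      HasDerivAt.comp u hG h1
    have h3 : HasDerivAt (fun u : ℝ => (Gf α ((u:ℂ) * z)).re) (deriv (Gf α) ((u:ℂ) * z) * z).re u := by
      exact Complex.reCLM.hasFDerivAt.comp_hasDerivAt u h2
    have h4 : HasDerivAt (fun u : ℝ => u ^ α) (α * u ^ (α - 1)) u :=
      Real.hasDerivAt_rpow_const (Or.inl hu.1.ne')
    have h5 := h4.mul h3
    have h6 : deriv φ u = α * u ^ (α - 1) * (Gf α ((u:ℂ) * z)).re +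
        u ^ α * (deriv (Gf α) ((u:ℂ) * z) * z).re := h5.deriv
    rw [h6]
    have h7 := Gf_ode hα hm
    have h8 : α * (Gf α ((u:ℂ) * z)).re + u * (deriv (Gf α) ((u:ℂ) * z) * z).re =
        α * ((1 + (u:ℂ) * z) / (1 - (u:ℂ) * z)).re := by
      have := congrArg Complex.re h7
      rw [Complex.add_re, Complex.re_ofReal_mul, Complex.re_ofReal_mul, mul_assoc,
        Complex.re_ofReal_mul] at this
      rw [← this, mul_comm z]
    have h9 : u ^ α = u ^ (α - 1) * u := by
      rw [Real.rpow_sub_one hu.1.ne', div_mul_cancel₀ _ hu.1.ne']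
    have h10 : 0 < u ^ (α - 1) := Real.rpow_pos_of_pos hu.1 _
    have h11 := p0_re hm
    have h12 : α * u ^ (α - 1) * (Gf α ((u:ℂ) * z)).re + u ^ α * (deriv (Gf α) ((u:ℂ) * z) * z).re
        = u ^ (α - 1) * (α * ((1 + (u:ℂ) * z) / (1 - (u:ℂ) * z)).re) := by
      rw [h9, ← h8]; ring
    rw [h12]; positivity
  have hmono := strictMonoOn_of_deriv_pos (convex_Icc 0 1) hcont hderiv
  have := hmono (Set.left_mem_Icc.2 zero_le_one) (Set.right_mem_Icc.2 zero_le_one) zero_lt_one
  simp only [hφ, Real.zero_rpow hα.ne', zero_mul, Real.one_rpow, one_mul, Complex.ofReal_one] at this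
  exact this

end

end Pool.Agent.R194.Baz
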