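import Pool.Agent.R194.Baz.Acc

/-!
The extremal series, families of powers, interpolation, majorisation.
-/
namespace Pool.Agent.R194.Baz

open PowerSeries Finset ComplexConjugate MeasureTheory

noncomputable def kapC (α : ℝ) : PowerSeries ℂ := PowerSeries.map (algebraMap ℝ ℂ) (kap α)
noncomputable def GamC (α : ℝ) : PowerSeries ℂ := PowerSeries.map (algebraMap ℝ ℂ) (Gam α)
noncomputable def G0 (α : ℝ) : PowerSeries ℂ := 2 * GamC α - 1
noncomputable def P0 : PowerSeries ℂ := PowerSeries.mk fun m => if m = 0 then 1 else 2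

lemma GamC_mul {α : ℝ} (hα : 0 < α) : (1 - kapC α) * GamC α = 1 := by
  have h := congrArg (PowerSeries.map (algebraMap ℝ ℂ)) (Gam_mul hα)
  simpa [kapC, GamC] using h

lemma G0_mul {α : ℝ} (hα : 0 < α) : G0 α * (1 - kapC α) = 1 + kapC α := by
  unfold G0
  linear_combination 2 * GamC_mul hα

lemma coeff_G0 (α : ℝ) (hα : 0 < α) (m : ℕ) :
    coeff m (G0 α) = if m = 0 then 1 else ((2 * gam α m : ℝ) : ℂ) := by
  unfold G0 GamC Gam
  have h2 : (2 : PowerSeries ℂ) = C (2:ℂ) := (map_ofNat C 2).symm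
  rw [map_sub, h2, coeff_C_mul, PowerSeries.coeff_map, coeff_mk, PowerSeries.coeff_one]
  by_cases h : m = 0
  · subst h; simp [gam_zero hα]; norm_num
  · simp [h]

lemma const_G0 {α : ℝ} (hα : 0 < α) : constantCoeff (G0 α) = 1 := by
  rw [← coeff_zero_eq_constantCoeff_apply, coeff_G0 α hα, if_pos rfl]

lemma acc_G0 {α : ℝ} (hα : 0 < α) (n : ℕ) : Acc n (wt α n) (G0 α) := by
  intro x
  set y : PowerSeries ℂ := GamC α * x with hy
  have hx : x = y - kapC α * y := by
    rw [hy]; linear_combination (-x) * GamC_mul hα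
  have hGx : G0 α * x = y + kapC α * y := by
    rw [hy]; linear_combination (-x * (G0 α - 1 + 0)) * GamC_mul hα + (GamC α * x) * G0_mul hα - x * GamC_mul hα
  have hk : ∀ i, coeff i (kapC α * y) =
      ∑ j ∈ range (i+1), ((coeff (i-j) (kap α) : ℝ) : ℂ) * coeff j y := by
    intro i
    rw [PowerSeries.coeff_mul, Finset.Nat.sum_antidiagonal_eq_sum_range_succ_mk,
      ← Finset.sum_range_reflect]
    apply sum_congr rfl; intro j hj
    have hj' : j ≤ i := by simpa [Nat.lt_succ_iff] using hj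
    simp only [kapC, PowerSeries.coeff_map]
    rw [show i + 1 - 1 - j = i - j by omega, show i - (i - j) = j by omega]
    rfl
  have hs := schur hα n (fun j => coeff j y)
  have e : ∑ i ∈ range (n+1), wt α n i * (conj (coeff i x) * coeff i (G0 α * x)).re =
      ∑ i ∈ range (n+1), wt α n i * ‖coeff i y‖^2 -
      ∑ i ∈ range (n+1), wt α n i * ‖coeff i (kapC α * y)‖^2 := by
    rw [← sum_sub_distrib]
    apply sum_congr rfl; intro i _
    rw [hGx, ← mul_sub]
    congr 1
    conv_lhs => rw [hx]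
    rw [map_sub, map_add]
    simp only [map_sub, Complex.mul_re, Complex.add_re, Complex.sub_re, Complex.add_im,
      Complex.sub_im, Complex.conj_re, Complex.conj_im, Complex.sq_norm, Complex.normSq_apply]
    ring
  rw [e]
  have : ∑ i ∈ range (n+1), wt α n i * ‖coeff i (kapC α * y)‖^2 ≤
      ∑ i ∈ range (n+1), wt α n i * ‖coeff i y‖^2 := by
    simpa only [hk] using hs
  linarith

lemma Acc.rescale {n : ℕ} {w : ℕ → ℝ} {H : PowerSeries ℂ} (h : Acc n w H) {u : ℂ} (hu : ‖u‖ = 1) :
    Acc n w (PowerSeries.rescale u H) := by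
  intro x
  have hu0 : u ≠ 0 := by intro h; rw [h, norm_zero] at hu; norm_num at hu
  obtain ⟨y, rfl⟩ : ∃ y, x = PowerSeries.rescale u y := ⟨PowerSeries.rescale u⁻¹ x, by
    rw [PowerSeries.rescale_rescale, inv_mul_cancel₀ hu0, PowerSeries.rescale_one]; rfl⟩
  refine (h y).trans (le_of_eq ?_)
  apply sum_congr rfl; intro i _
  congr 2
  rw [← map_mul (PowerSeries.rescale u), coeff_rescale, coeff_rescale, map_mul (starRingEnd ℂ)]
  have : conj (u^i) * u^i = 1 := by
    rw [← Complex.normSq_eq_conj_mul_self, Complex.normSq_eq_norm_sq, norm_pow, hu]; simp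
  linear_combination (-(conj (coeff i y) * coeff i (H * y))) * this

section measure
variable {Ω : Type*} [MeasurableSpace Ω] {ν : Measure Ω} [IsProbabilityMeasure ν] {u : Ω → ℂ}

lemma integrable_pow (hum : Measurable u) (hu : ∀ ω, ‖u ω‖ = 1) (m : ℕ) :
    Integrable (fun ω => u ω ^ m) ν := by
  apply Integrable.of_bound (hum.pow_const m).aestronglyMeasurable 1
  filter_upwards with ω
  rw [norm_pow, hu, one_pow]

/-- coefficients of a product with an averaged series -/
lemma coeff_int (hum : Measurable u) (hu : ∀ ω, ‖u ω‖ = 1) {A H : PowerSeries ℂ}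
    (hH : ∀ m, coeff m H = coeff m A * ∫ ω, u ω ^ m ∂ν) (x : PowerSeries ℂ) (n : ℕ) :
    Integrable (fun ω => coeff n (PowerSeries.rescale (u ω) A * x)) ν ∧
    coeff n (H * x) = ∫ ω, coeff n (PowerSeries.rescale (u ω) A * x) ∂ν := by
  have e : (fun ω => coeff n (PowerSeries.rescale (u ω) A * x)) =
      fun ω => ∑ p ∈ antidiagonal n, (coeff p.1 A * coeff p.2 x) * u ω ^ p.1 := by
    funext ω
    rw [PowerSeries.coeff_mul]
    apply sum_congr rfl; intro p _
    rw [coeff_rescale]; ring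
  have hint : ∀ p ∈ antidiagonal n, Integrable (fun ω => (coeff p.1 A * coeff p.2 x) * u ω ^ p.1) ν :=
    fun p _ => (integrable_pow hum hu p.1).const_mul _
  constructor
  · rw [e]; exact integrable_finsetSum _ hint
  · rw [e, integral_finsetSum _ hint, PowerSeries.coeff_mul]
    apply sum_congr rfl; intro p _
    rw [integral_const_mul, hH]; ring

lemma acc_int {n : ℕ} {w : ℕ → ℝ} (hum : Measurable u) (hu : ∀ ω, ‖u ω‖ = 1)
    {A H : PowerSeries ℂ} (hA : Acc n w A)
    (hH : ∀ m, coeff m H = coeff m A * ∫ ω, u ω ^ m ∂ν) : Acc n w H := by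
  intro x
  have e : ∑ i ∈ range (n+1), w i * (conj (coeff i x) * coeff i (H * x)).re =
      ∫ ω, ∑ i ∈ range (n+1), w i * (conj (coeff i x) *
        coeff i (PowerSeries.rescale (u ω) A * x)).re ∂ν := by
    have hI : ∀ i, Integrable (fun ω => conj (coeff i x) *
        coeff i (PowerSeries.rescale (u ω) A * x)) ν :=
      fun i => (coeff_int hum hu hH x i).1.const_mul _
    rw [integral_finsetSum]
    · apply sum_congr rfl; intro i _
      rw [integral_const_mul]
      congr 1
      rw [(coeff_int hum hu hH x i).2, ← integral_const_mul]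
      exact (integral_re (hI i)).symm
    · intro i _
      exact (hI i).re.const_mul _
  rw [e]
  apply integral_nonneg
  intro ω
  exact hA.rescale (hu ω) x

end measure

/-- a multiplicative family of powers -/
structure Fam (E : ℝ → PowerSeries ℂ) : Prop where
  add : ∀ s t, E (s + t) = E s * E t
  c0 : ∀ s, constantCoeff (E s) = 1
  cont : ∀ n, Continuous fun s => coeff n (E s)

lemma Fam.zero {E : ℝ → PowerSeries ℂ} (h : Fam E) : E 0 = 1 := by
  have h1 := h.add 0 0
  rw [add_zero] at h1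
  have h2 : E 0 ≠ 0 := by
    intro h3; have := h.c0 0; rw [h3] at this; simp at this
  exact (mul_left_cancel₀ h2 (by rw [mul_one]; exact h1)).symm

lemma Fam.rescale {E : ℝ → PowerSeries ℂ} (h : Fam E) (u : ℂ) :
    Fam (fun s => PowerSeries.rescale u (E s)) where
  add s t := by rw [h.add, map_mul]
  c0 s := by
    rw [← coeff_zero_eq_constantCoeff_apply, coeff_rescale, pow_zero, one_mul,
      coeff_zero_eq_constantCoeff_apply, h.c0]
  cont n := by
    simp only [coeff_rescale]
    exact continuous_const.mul (h.cont n)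

lemma gap {S : Set ℝ} (hS : IsClosed S) (h0 : (0:ℝ) ∈ S) (h1 : (1:ℝ) ∈ S)
    (mid : ∀ a ∈ S, ∀ b ∈ S, (a + b) / 2 ∈ S) {θ : ℝ} (hθ0 : 0 ≤ θ) (hθ1 : θ ≤ 1) : θ ∈ S := by
  by_contra hn
  have hA : IsCompact (S ∩ Set.Icc 0 θ) := isCompact_Icc.inter_left hS
  have hB : IsCompact (S ∩ Set.Icc θ 1) := isCompact_Icc.inter_left hS
  have hAn : (S ∩ Set.Icc 0 θ).Nonempty := ⟨0, h0, le_rfl, hθ0⟩
  have hBn : (S ∩ Set.Icc θ 1).Nonempty := ⟨1, h1, hθ1, le_rfl⟩
  have ha := hA.sSup_mem hAn
  have hb := hB.sInf_mem hBn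
  set a := sSup (S ∩ Set.Icc 0 θ)
  set b := sInf (S ∩ Set.Icc θ 1)
  have haθ : a < θ := lt_of_le_of_ne ha.2.2 (fun h => hn (h ▸ ha.1))
  have hbθ : θ < b := lt_of_le_of_ne hb.2.1 (fun h => hn (h ▸ hb.1))
  have hm := mid a ha.1 b hb.1
  rcases le_total ((a+b)/2) θ with h | h
  · have : (a+b)/2 ≤ a := le_csSup hA.bddAbove ⟨hm, by linarith [ha.2.1], h⟩
    linarith
  · have : b ≤ (a+b)/2 := csInf_le hB.bddBelow ⟨hm, h, by linarith [hb.2.2]⟩
    linarith

lemma Fam.interp {n : ℕ} {w : ℕ → ℝ} {E F : ℝ → PowerSeries ℂ} (hE : Fam E) (hF : Fam F)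
    (h1 : Acc n w (E 1)) (h2 : Acc n w (F 1)) {θ : ℝ} (hθ0 : 0 ≤ θ) (hθ1 : θ ≤ 1) :
    Acc n w (E θ * F (1 - θ)) := by
  have hcl : IsClosed {θ : ℝ | Acc n w (E θ * F (1 - θ))} := by
    have : {θ : ℝ | Acc n w (E θ * F (1 - θ))} = ⋂ x : PowerSeries ℂ, {θ : ℝ | 0 ≤ ∑ i ∈ range (n+1),
        w i * (conj (coeff i x) * coeff i ((E θ * F (1 - θ)) * x)).re} := by
      ext θ; simp only [Set.mem_ofPred_eq, Set.mem_iInter]; rfl
    rw [this]
    apply isClosed_iInter; intro x
    apply isClosed_le continuous_const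
    apply continuous_finsetSum; intro i _
    apply continuous_const.mul
    apply Complex.continuous_re.comp
    apply continuous_const.mul
    simp only [PowerSeries.coeff_mul]
    apply continuous_finsetSum; intro p _
    refine Continuous.mul ?_ continuous_const
    apply continuous_finsetSum; intro q _
    exact (hE.cont q.1).mul ((hF.cont q.2).comp (continuous_const.sub continuous_id))
  have key := gap (S := {θ : ℝ | Acc n w (E θ * F (1 - θ))}) hcl
    (by simp only [Set.mem_ofPred_eq, sub_zero]; rw [hE.zero, one_mul]; exact h2)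
    (by simp only [Set.mem_ofPred_eq, sub_self]; rw [hF.zero, mul_one]; exact h1)
    (by
      intro a ha b hb
      simp only [Set.mem_ofPred_eq] at ha hb ⊢
      refine Acc.sqrt n 1 le_rfl (by omega) (E a * F (1-a)) (E b * F (1-b)) _ ?_ ?_ ?_ ?_ ?_ ha hb
      · rw [PowerSeries.X_pow_dvd_iff]
        intro m hm
        have : m = 0 := by omega
        subst this
        rw [coeff_zero_eq_constantCoeff_apply, map_sub, map_mul, map_mul, hE.c0, hE.c0, hF.c0, hF.c0]
        ring
      · rw [map_mul, hE.c0, hF.c0, mul_one]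
      · rw [map_mul, hE.c0, hF.c0, mul_one]
      · rw [map_mul, hE.c0, hF.c0, mul_one]
      · have e1 : E a * E b = E ((a+b)/2) * E ((a+b)/2) := by
          rw [← hE.add, ← hE.add]; congr 1; ring
        have e2 : F (1-a) * F (1-b) = F (1 - (a+b)/2) * F (1 - (a+b)/2) := by
          rw [← hF.add, ← hF.add]; congr 1; ring
        linear_combination (F (1-a) * F (1-b)) * e1 + (E ((a+b)/2) * E ((a+b)/2)) * e2)
    hθ0 hθ1
  exact key

end Pool.Agent.R194.Baz
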