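import Pool.Agent.R194.Baz.Ext

/-!
The coefficient theorem.
-/
namespace Pool.Agent.R194.Baz

open PowerSeries Finset ComplexConjugate MeasureTheory Topology Metric

/-- The class `B_1(α)`. -/
def IsB1 (α : ℝ) (f : ℂ → ℂ) : Prop :=
  DifferentiableOn ℂ f (ball 0 1) ∧ f 0 = 0 ∧ deriv f 0 = 1 ∧
  ∃ L : ℂ → ℂ, DifferentiableOn ℂ L (ball 0 1) ∧ L 0 = 0 ∧
    (∀ z ∈ ball (0:ℂ) 1, f z = z * Complex.exp (L z)) ∧
    ∀ z ∈ ball (0:ℂ) 1, 0 < (Complex.exp (((α - 1 : ℝ) : ℂ) * L z) * deriv f z).re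

/-- the extremal function -/
noncomputable def gB (α : ℝ) (z : ℂ) : ℂ := z * Gf α z ^ ((1 / α : ℝ) : ℂ)

section
variable {α : ℝ}

/-- logarithm of `Gf` -/
noncomputable def Lg (α : ℝ) (z : ℂ) : ℂ := Complex.log (Gf α z)

lemma Gf_ne (hα : 0 < α) {z : ℂ} (hz : z ∈ ball (0:ℂ) 1) : Gf α z ≠ 0 := by
  intro h
  have := Gf_re hα hz
  rw [h] at this; simp at this

lemma Lg_diff (hα : 0 < α) : DifferentiableOn ℂ (Lg α) (ball 0 1) :=
  (Gf_diff hα).clog fun _ hz => Or.inl (Gf_re hα hz)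

lemma Lg_an (hα : 0 < α) : AnalyticAt ℂ (Lg α) 0 :=
  (Lg_diff hα).analyticAt (ball_mem_nhds _ one_pos)

lemma Lg_zero (hα : 0 < α) : Lg α 0 = 0 := by
  rw [Lg, Gf_zero hα, Complex.log_one]

lemma exp_Lg (hα : 0 < α) {z : ℂ} (hz : z ∈ ball (0:ℂ) 1) : Complex.exp (Lg α z) = Gf α z :=
  Complex.exp_log (Gf_ne hα hz)

lemma F_one (hα : 0 < α) : pw (Lg α) 1 = G0 α := by
  rw [← Gf_tay hα, pw]
  apply tay_congr_ball
  intro z hz
  rw [← exp_Lg hα hz]; simp

lemma tay_dLg (hα : 0 < α) : tay (deriv (Lg α)) = D0 α := by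
  have h := pw_ode (Lg_an hα) 1
  rw [F_one hα, Complex.ofReal_one, map_one, one_mul] at h
  rw [D0, h, mul_assoc, PowerSeries.mul_inv_cancel _ (G0_ne hα), mul_one]

lemma F_D (hα : 0 < α) (s : ℝ) :
    derivative ℂ (pw (Lg α) s) = PowerSeries.C (s:ℂ) * (D0 α * pw (Lg α) s) := by
  rw [← tay_dLg hα]; exact pw_ode (Lg_an hα) s

lemma X_deriv_rescale (r : ℂ) (E : PowerSeries ℂ) :
    X * derivative ℂ (PowerSeries.rescale r E) = PowerSeries.rescale r (X * derivative ℂ E) := by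
  ext n
  rw [coeff_X_deriv, coeff_rescale, coeff_rescale, coeff_X_deriv]; ring

/-- the main inequality for the powers of `f / z` -/
theorem main_pw (hα : 0 < α) {L : ℂ → ℂ} (hL : DifferentiableOn ℂ L (ball 0 1)) (hL0 : L 0 = 0)
    {p : ℂ → ℂ} (hpe : ∀ z ∈ ball (0:ℂ) 1, p z = Complex.exp ((α:ℂ) * L z) * (1 + z * deriv L z))
    (hpos : ∀ z ∈ ball (0:ℂ) 1, 0 < (p z).re) {t : ℝ} (ht : 1 ≤ t) (n : ℕ) :
    ‖coeff n (pw (fun z => (α:ℂ) * L z) t)‖ ≤ ‖coeff n (pw (Lg α) t)‖ := by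
  set M : ℂ → ℂ := fun z => (α:ℂ) * L z with hM
  have hMd : DifferentiableOn ℂ M (ball 0 1) := hL.const_mul _
  have hMa : AnalyticAt ℂ M 0 := hMd.analyticAt (ball_mem_nhds _ one_pos)
  have hLa : AnalyticAt ℂ L 0 := hL.analyticAt (ball_mem_nhds _ one_pos)
  have hM0 : M 0 = 0 := by rw [hM]; simp [hL0]
  have hpd : DifferentiableOn ℂ p (ball 0 1) := by
    have hd : DifferentiableOn ℂ (deriv L) (ball 0 1) := hL.deriv isOpen_ball
    refine DifferentiableOn.congr (f := fun z => Complex.exp ((α:ℂ) * L z) * (1 + z * deriv L z)) ?_ hpe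
    exact (hL.const_mul _).cexp.mul ((differentiableOn_const _).add (differentiableOn_id.mul hd))
  have hpa : AnalyticAt ℂ p 0 := hpd.analyticAt (ball_mem_nhds _ one_pos)
  have hp0 : p 0 = 1 := by rw [hpe 0 (mem_ball_self one_pos), hL0]; simp
  -- relation between p and the exponential
  have hMpe : ∀ z ∈ ball (0:ℂ) 1, deriv M z = (α:ℂ) * deriv L z := by
    intro z hz
    rw [hM]
    exact deriv_const_mul _ (hL.differentiableAt (isOpen_ball.mem_nhds hz))
  have e1 : PowerSeries.C (α:ℂ) * tay p = PowerSeries.C (α:ℂ) * pw M 1 +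
      X * (tay (deriv M) * pw M 1) := by
    have a1 := pw_an hMa 1
    rw [← tay_const_mul _ hpa, pw, ← tay_const_mul _ a1, ← tay_mul hMa.deriv a1, ← tay_id,
      ← tay_mul (f := fun z => z) (g := fun z => deriv M z * Complex.exp (((1:ℝ):ℂ) * M z)) analyticAt_id
        (hMa.deriv.mul a1),
      ← tay_add (f := fun z => (α:ℂ) * Complex.exp (((1:ℝ):ℂ) * M z))
        (g := fun z => z * (deriv M z * Complex.exp (((1:ℝ):ℂ) * M z)))
        (analyticAt_const.mul a1) (analyticAt_id.mul (hMa.deriv.mul a1))]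
    apply tay_congr_ball
    intro z hz
    rw [hpe z hz, hMpe z hz, hM]
    simp only [Complex.ofReal_one, one_mul]
    ring
  have hode := pw_ode hMa
  have hfam := pw_fam hMa hM0
  have h2 : ∀ θ : ℝ, X * derivative ℂ (pw M (1 + θ)) + PowerSeries.C (((1+θ)*α : ℝ) : ℂ) * pw M (1 + θ) =
      PowerSeries.C (((1+θ)*α : ℝ) : ℂ) * (tay p * pw M θ) := by
    intro θ
    have h5 : (PowerSeries.C (((1+θ)*α : ℝ) : ℂ) : PowerSeries ℂ) =
        PowerSeries.C ((1+θ : ℝ):ℂ) * PowerSeries.C (α:ℂ) := by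
      rw [← map_mul, ← Complex.ofReal_mul]
    rw [hode, h5, hfam.add]
    linear_combination (-(PowerSeries.C ((1+θ : ℝ):ℂ) * pw M θ)) * e1
  have h3 : ∀ m, coeff m (pw M 1) = (gam α m : ℂ) * coeff m (tay p) := by
    intro m
    have h4 := hode 1
    rw [Complex.ofReal_one, map_one, one_mul] at h4
    rw [← h4] at e1
    have h6 := congrArg (coeff m) e1
    rw [map_add, coeff_C_mul, coeff_C_mul, coeff_X_deriv] at h6
    have h7 : ((m:ℂ) + α) ≠ 0 := by
      have : (m:ℝ) + α ≠ 0 := by positivity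
      exact_mod_cast this
    rw [gam]; push_cast
    field_simp
    linear_combination -h6
  -- bound for every radius
  have hr : ∀ r : ℝ, 0 < r → r < 1 → r^n * ‖coeff n (pw M t)‖ ≤ ‖coeff n (pw (Lg α) t)‖ := by
    intro r h0 h1
    obtain ⟨ν, hν, hmom⟩ := herglotz hpd hpos hp0 h0 h1
    have hum : Measurable fun θ : ℝ => Complex.exp (-(θ * Complex.I)) := by fun_prop
    have hu : ∀ θ : ℝ, ‖Complex.exp (-(θ * Complex.I))‖ = 1 := by
      intro θ
      have := Complex.norm_exp_ofReal_mul_I (-θ)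
      rw [← this]; congr 2; push_cast; ring
    have hG : ∀ m, (gam α m : ℂ) * coeff m P0 = coeff m (G0 α) := by
      intro m
      rw [P0, coeff_mk, coeff_G0 α hα]
      by_cases hm : m = 0
      · subst hm; simp [gam_zero hα]
      · rw [if_neg hm, if_neg hm]; push_cast; ring
    have key := core (ν := ν) (E := fun s => PowerSeries.rescale (r:ℂ) (pw M s)) (F := pw (Lg α))
      (p := PowerSeries.rescale (r:ℂ) (tay p)) hα hum hu (hfam.rescale _) (pw_fam (Lg_an hα) (Lg_zero hα))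
      (by
        intro m
        have h8 := hmom m
        rw [coeff_rescale, h3, ← hG]
        linear_combination (gam α m : ℂ) * h8)
      (by
        intro m
        rw [coeff_rescale]; exact hmom m)
      (by
        intro θ
        rw [X_deriv_rescale]
        have h9 := congrArg (PowerSeries.rescale (r:ℂ)) (h2 θ)
        have h10 : ∀ c : ℂ, PowerSeries.rescale (r:ℂ) (PowerSeries.C c) = PowerSeries.C c := by
          intro c
          ext k
          rw [coeff_rescale, coeff_C]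
          split_ifs with hk
          · subst hk; simp
          · simp
        rw [map_add, map_mul (PowerSeries.rescale (r:ℂ)) (PowerSeries.C _) (pw M (1 + θ)),
          map_mul (PowerSeries.rescale (r:ℂ)) (PowerSeries.C _) (tay p * pw M θ),
          map_mul (PowerSeries.rescale (r:ℂ)) (tay p), h10] at h9
        exact h9)
      (F_one hα) (F_D hα) ht n
    simp only [coeff_rescale, norm_mul, norm_pow, Complex.norm_real, Real.norm_of_nonneg h0.le] at key
    exact key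
  -- limit
  have hlim : Filter.Tendsto (fun r : ℝ => r^n * ‖coeff n (pw M t)‖) (𝓝[<] 1)
      (𝓝 ((1:ℝ)^n * ‖coeff n (pw M t)‖)) := by
    apply Filter.Tendsto.mono_left _ nhdsWithin_le_nhds
    exact ((continuous_pow n).mul continuous_const).tendsto 1
  rw [one_pow, one_mul] at hlim
  apply le_of_tendsto hlim
  have : Set.Ioo (0:ℝ) 1 ∈ 𝓝[<] (1:ℝ) := Ioo_mem_nhdsLT zero_lt_one
  filter_upwards [this] with r hr'
  exact hr r hr'.1 hr'.2

/-- Taylor coefficient -/
noncomputable def cf (f : ℂ → ℂ) (n : ℕ) : ℂ := iteratedDeriv n f 0 / (n.factorial : ℂ)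

lemma gB_eq (hα : 0 < α) {z : ℂ} (hz : z ∈ ball (0:ℂ) 1) :
    gB α z = z * Complex.exp (((1/α : ℝ) : ℂ) * Lg α z) := by
  rw [gB, Complex.cpow_def_of_ne_zero (Gf_ne hα hz), Lg, mul_comm (Complex.log _)]

/-- the extremal function is in the class -/
theorem gB_mem (hα : 0 < α) : IsB1 α (gB α) ∧
    ∀ z ∈ ball (0:ℂ) 1, Complex.exp (((α - 1 : ℝ) : ℂ) * (((1/α : ℝ) : ℂ) * Lg α z)) * deriv (gB α) z =
      (1 + z) / (1 - z) := by
  have hLd := Lg_diff hα
  have hαC : (α:ℂ) ≠ 0 := by exact_mod_cast hα.ne'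
  have hd : DifferentiableOn ℂ (fun z => z * Complex.exp (((1/α : ℝ) : ℂ) * Lg α z)) (ball 0 1) :=
    differentiableOn_id.mul (hLd.const_mul _).cexp
  have hdg : DifferentiableOn ℂ (gB α) (ball 0 1) := hd.congr fun z hz => gB_eq hα hz
  have hder : ∀ z ∈ ball (0:ℂ) 1, deriv (gB α) z = Complex.exp (((1/α : ℝ) : ℂ) * Lg α z) *
      (1 + z * (((1/α : ℝ) : ℂ) * deriv (Lg α) z)) := by
    intro z hz
    have hnh := isOpen_ball.mem_nhds hz
    have e : gB α =ᶠ[𝓝 z] fun z => z * Complex.exp (((1/α : ℝ) : ℂ) * Lg α z) :=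
      Filter.eventuallyEq_of_mem hnh fun w hw => gB_eq hα hw
    rw [e.deriv_eq]
    have h1 := (hLd.differentiableAt hnh).hasDerivAt
    have h2 := (hasDerivAt_id z).mul (h1.const_mul (((1/α : ℝ) : ℂ))).cexp
    have h3 : deriv (fun z => z * Complex.exp (((1/α : ℝ) : ℂ) * Lg α z)) z =
      1 * Complex.exp (((1/α : ℝ) : ℂ) * Lg α z) + id z * (Complex.exp (((1/α : ℝ) : ℂ) * Lg α z) *
        ((((1/α : ℝ) : ℂ)) * deriv (Lg α) z)) := h2.deriv
    rw [h3]; simp only [id]; ring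
  have hkey : ∀ z ∈ ball (0:ℂ) 1, Complex.exp (((α - 1 : ℝ) : ℂ) * (((1/α : ℝ) : ℂ) * Lg α z)) *
      deriv (gB α) z = (1 + z) / (1 - z) := by
    intro z hz
    have hnh := isOpen_ball.mem_nhds hz
    rw [hder z hz, ← mul_assoc, ← Complex.exp_add]
    have e1 : ((α - 1 : ℝ) : ℂ) * (((1/α : ℝ) : ℂ) * Lg α z) + ((1/α : ℝ) : ℂ) * Lg α z = Lg α z := by
      push_cast; field_simp; ring
    rw [e1, exp_Lg hα hz]
    have h4 : deriv (Lg α) z = deriv (Gf α) z / Gf α z := by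
      have h5 := ((Gf_diff hα).differentiableAt hnh).hasDerivAt
      exact (h5.clog (Or.inl (Gf_re hα hz))).deriv
    have h6 := Gf_ode hα hz
    have h7 := Gf_ne hα hz
    rw [h4]
    push_cast
    have h8 : (α:ℂ) * (Gf α z * (1 + z * (1 / α * (deriv (Gf α) z / Gf α z)))) =
        α * ((1 + z) / (1 - z)) := by
      rw [← h6]; field_simp
    exact mul_left_cancel₀ hαC h8
  refine ⟨⟨hdg, ?_, ?_, fun z => ((1/α : ℝ) : ℂ) * Lg α z, hLd.const_mul _, ?_, fun z hz => gB_eq hα hz,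
    ?_⟩, hkey⟩
  · rw [gB_eq hα (mem_ball_self one_pos), zero_mul]
  · rw [hder 0 (mem_ball_self one_pos), Lg_zero hα]; simp
  · show ((1/α : ℝ) : ℂ) * Lg α 0 = 0
    rw [Lg_zero hα, mul_zero]
  · intro z hz
    rw [hkey z hz]; exact p0_re hz

/-- the coefficient theorem -/
theorem coeff_bound (hα : 0 < α) (hα1 : α ≤ 1) {f : ℂ → ℂ} (hf : IsB1 α f) (n : ℕ) :
    ‖cf f n‖ ≤ (cf (gB α) n).re ∧ (cf (gB α) n).im = 0 := by
  obtain ⟨hfd, hf0, hf1, L, hL, hL0, hfL, hpos⟩ := hf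
  have hαC : (α:ℂ) ≠ 0 := by exact_mod_cast hα.ne'
  have h1a : ((1/α : ℝ) : ℂ) * α = 1 := by
    rw [← Complex.ofReal_mul, one_div_mul_cancel hα.ne', Complex.ofReal_one]
  have hLa : AnalyticAt ℂ L 0 := hL.analyticAt (ball_mem_nhds _ one_pos)
  have ef : tay f = X * pw (fun z => (α:ℂ) * L z) (1/α) := by
    rw [pw, ← tay_id, ← tay_mul (f := fun z => z)
      (g := fun z => Complex.exp (((1/α : ℝ) : ℂ) * ((α:ℂ) * L z))) analyticAt_id
      (pw_an (L := fun z => (α:ℂ) * L z) (analyticAt_const.mul hLa) _)]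
    apply tay_congr_ball
    intro z hz
    rw [hfL z hz, ← mul_assoc, h1a, one_mul]
  have eg : tay (gB α) = X * pw (Lg α) (1/α) := by
    rw [pw, ← tay_id, ← tay_mul (f := fun z => z)
      (g := fun z => Complex.exp (((1/α : ℝ) : ℂ) * Lg α z)) analyticAt_id (pw_an (Lg_an hα) _)]
    apply tay_congr_ball
    intro z hz
    exact gB_eq hα hz
  have hc : ∀ (h : ℂ → ℂ), cf h n = coeff n (tay h) := by
    intro h; rw [cf, coeff_tay]
  rw [hc f, hc (gB α), ef, eg]
  rcases n with _ | k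
  · simp
  rw [coeff_succ_X_mul, coeff_succ_X_mul]
  have hnn := F_nn hα (pw_fam (Lg_an hα) (Lg_zero hα)) (F_D hα) (s := 1/α) (by positivity) k
  obtain ⟨b, hb, eb⟩ := hnn
  have hder : ∀ z ∈ ball (0:ℂ) 1, deriv f z = Complex.exp (L z) * (1 + z * deriv L z) := by
    intro z hz
    have hnh := isOpen_ball.mem_nhds hz
    have e : f =ᶠ[𝓝 z] fun z => z * Complex.exp (L z) :=
      Filter.eventuallyEq_of_mem hnh fun w hw => hfL w hw
    rw [e.deriv_eq]
    have h1 := (hL.differentiableAt hnh).hasDerivAt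
    have h2 := (hasDerivAt_id z).mul h1.cexp
    have h3 : deriv (fun z => z * Complex.exp (L z)) z =
      1 * Complex.exp (L z) + id z * (Complex.exp (L z) * deriv L z) := h2.deriv
    rw [h3]; simp only [id]; ring
  have key := main_pw hα hL hL0 (p := fun z => Complex.exp (((α - 1 : ℝ) : ℂ) * L z) * deriv f z)
    (by
      intro z hz
      rw [hder z hz, ← mul_assoc, ← Complex.exp_add]
      congr 2
      push_cast; ring) hpos (t := 1/α) (by rw [le_div_iff₀ hα]; linarith) k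
  rw [eb] at key ⊢
  rw [Complex.norm_real, Real.norm_of_nonneg hb] at key
  exact ⟨by rw [Complex.ofReal_re]; exact key, Complex.ofReal_im b⟩

end

end Pool.Agent.R194.Baz
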