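import Pool.Agent.R194.Baz.Tay

/-!
Herglotz representation of the coefficients on a circle of radius less than one.
-/
namespace Pool.Agent.R194.Baz

open PowerSeries Finset ComplexConjugate MeasureTheory Topology Metric

section
variable {p : ℂ → ℂ} {r : ℝ}

lemma cm_eq (r θ : ℝ) : circleMap 0 r θ = (r:ℂ) * Complex.exp (θ * Complex.I) := by
  simp [circleMap]

lemma cm_mem (h0 : 0 < r) (h1 : r < 1) (θ : ℝ) : circleMap 0 r θ ∈ ball (0:ℂ) 1 := by
  rw [mem_ball_zero_iff, norm_circleMap_zero, abs_of_pos h0]; exact h1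

lemma q_cont (hp : DifferentiableOn ℂ p (ball 0 1)) (h0 : 0 < r) (h1 : r < 1) :
    Continuous fun θ : ℝ => p (circleMap 0 r θ) :=
  hp.continuousOn.comp_continuous (continuous_circleMap 0 r) (cm_mem h0 h1)

lemma four1 (hp : DifferentiableOn ℂ p (ball 0 1)) (h0 : 0 < r) (h1 : r < 1) (m : ℕ) :
    ∫ θ in (0:ℝ)..2 * Real.pi, Complex.exp (-(θ * Complex.I)) ^ m * p (circleMap 0 r θ) =
      2 * Real.pi * ((r:ℂ) ^ m * coeff m (tay p)) := by
  have hd : DifferentiableOn ℂ p (closedBall 0 r) := hp.mono (closedBall_subset_ball h1)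
  have h := hd.circleIntegral_one_div_sub_center_pow_smul h0 m
  rw [circleIntegral] at h
  have hr : (r:ℂ) ≠ 0 := by exact_mod_cast h0.ne'
  have e : ∀ θ : ℝ, deriv (circleMap 0 r) θ • (1 / (circleMap 0 r θ - 0) ^ (m + 1)) •
      p (circleMap 0 r θ) = (Complex.I * ((r:ℂ)^m)⁻¹) *
      (Complex.exp (-(θ * Complex.I)) ^ m * p (circleMap 0 r θ)) := by
    intro θ
    rw [deriv_circleMap, sub_zero, smul_eq_mul, smul_eq_mul]
    have hw : circleMap 0 r θ ≠ 0 := by
      rw [cm_eq]; exact mul_ne_zero hr (Complex.exp_ne_zero _)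
    have h2 : Complex.exp (-(θ * Complex.I)) ^ m * (circleMap 0 r θ)^m = (r:ℂ)^m := by
      rw [cm_eq, mul_pow, mul_left_comm, ← mul_pow, ← Complex.exp_add]; simp
    have h3 : (circleMap 0 r θ)^m ≠ 0 := pow_ne_zero _ hw
    have h4 : (r:ℂ)^m ≠ 0 := pow_ne_zero _ hr
    rw [pow_succ]
    generalize Complex.exp (-(θ * Complex.I)) ^ m = Ex at h2 ⊢
    field_simp
    linear_combination (-p (circleMap 0 r θ)) * h2
  simp_rw [e] at h
  rw [intervalIntegral.integral_const_mul] at h
  have h4 : (r:ℂ)^m ≠ 0 := pow_ne_zero _ hr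
  have h5 : (m.factorial : ℂ) ≠ 0 := by exact_mod_cast m.factorial_ne_zero
  rw [coeff_tay]
  have hI := Complex.I_ne_zero
  rw [smul_eq_mul] at h
  field_simp at h ⊢
  linear_combination h

lemma four2 (hp : DifferentiableOn ℂ p (ball 0 1)) (h0 : 0 < r) (h1 : r < 1) {m : ℕ} (hm : m ≠ 0) :
    ∫ θ in (0:ℝ)..2 * Real.pi, Complex.exp (θ * Complex.I) ^ m * p (circleMap 0 r θ) = 0 := by
  have hd : DifferentiableOn ℂ (fun z => z^m * p z) (closedBall 0 r) :=
    ((differentiable_id.pow m).differentiableOn).mul (hp.mono (closedBall_subset_ball h1))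
  have h := hd.circleIntegral_one_div_sub_center_pow_smul h0 0
  rw [circleIntegral] at h
  have hr : (r:ℂ) ≠ 0 := by exact_mod_cast h0.ne'
  have e : ∀ θ : ℝ, deriv (circleMap 0 r) θ • (1 / (circleMap 0 r θ - 0) ^ (0 + 1)) •
      ((circleMap 0 r θ)^m * p (circleMap 0 r θ)) = (Complex.I * (r:ℂ)^m) *
      (Complex.exp (θ * Complex.I) ^ m * p (circleMap 0 r θ)) := by
    intro θ
    rw [deriv_circleMap, sub_zero, smul_eq_mul, smul_eq_mul]
    have hw : circleMap 0 r θ ≠ 0 := by
      rw [cm_eq]; exact mul_ne_zero hr (Complex.exp_ne_zero _)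
    have h2 : (circleMap 0 r θ)^m = (r:ℂ)^m * Complex.exp (θ * Complex.I) ^ m := by
      rw [cm_eq, mul_pow]
    rw [zero_add, pow_one, h2]
    field_simp
  simp_rw [e] at h
  rw [intervalIntegral.integral_const_mul] at h
  have h4 : (r:ℂ)^m ≠ 0 := pow_ne_zero _ hr
  have hI := Complex.I_ne_zero
  simp only [iteratedDeriv_zero, zero_pow hm, zero_mul, smul_zero, mul_eq_zero, hI, h4, or_self,
    false_or] at h
  exact h

lemma conj_exp (θ : ℝ) (m : ℕ) : conj (Complex.exp (θ * Complex.I) ^ m) =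
    Complex.exp (-(θ * Complex.I)) ^ m := by
  rw [map_pow, ← Complex.exp_conj, map_mul, Complex.conj_ofReal, Complex.conj_I, mul_neg]

lemma four3 (hp : DifferentiableOn ℂ p (ball 0 1)) (h0 : 0 < r) (h1 : r < 1) (hp0 : p 0 = 1) (m : ℕ) :
    ∫ θ in (0:ℝ)..2 * Real.pi, Complex.exp (-(θ * Complex.I)) ^ m * conj (p (circleMap 0 r θ)) =
      if m = 0 then (2 * Real.pi : ℂ) else 0 := by
  have e : ∫ θ in (0:ℝ)..2 * Real.pi, Complex.exp (-(θ * Complex.I)) ^ m * conj (p (circleMap 0 r θ)) =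
      conj (∫ θ in (0:ℝ)..2 * Real.pi, Complex.exp (θ * Complex.I) ^ m * (p (circleMap 0 r θ))) := by
    rw [intervalIntegral.integral_of_le (by positivity), intervalIntegral.integral_of_le (by positivity),
      ← integral_conj]
    congr 1; funext θ
    rw [map_mul, conj_exp]
  rw [e]
  by_cases hm : m = 0
  · subst hm
    have := four1 hp h0 h1 0
    simp only [pow_zero, one_mul] at this
    rw [if_pos rfl]
    simp only [pow_zero, one_mul]
    rw [this, coeff_zero_eq_constantCoeff_apply, tay_zero, hp0, mul_one, map_mul, Complex.conj_ofReal,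
      map_ofNat (starRingEnd ℂ) 2]
  · rw [four2 hp h0 h1 hm, if_neg hm, map_zero]

theorem herglotz (hp : DifferentiableOn ℂ p (ball 0 1)) (hpos : ∀ z ∈ ball (0:ℂ) 1, 0 < (p z).re)
    (hp0 : p 0 = 1) (h0 : 0 < r) (h1 : r < 1) :
    ∃ ν : Measure ℝ, IsProbabilityMeasure ν ∧ ∀ m : ℕ, (r:ℂ)^m * coeff m (tay p) =
      coeff m P0 * ∫ θ : ℝ, Complex.exp (-(θ * Complex.I)) ^ m ∂ν := by
  set h : ℝ → ℝ := fun θ => (p (circleMap 0 r θ)).re / (2 * Real.pi) with hh
  have hpi : (0:ℝ) < 2 * Real.pi := by positivity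
  have hpiC : (Real.pi : ℂ) ≠ 0 := by exact_mod_cast Real.pi_ne_zero
  have hc : Continuous h := (Complex.continuous_re.comp (q_cont hp h0 h1)).div_const _
  have hnn : ∀ θ, 0 ≤ h θ := fun θ => div_nonneg (hpos _ (cm_mem h0 h1 θ)).le hpi.le
  set g : ℝ → NNReal := fun θ => Real.toNNReal (h θ) with hg
  have hgm : Measurable g := (continuous_real_toNNReal.comp hc).measurable
  -- the moments
  have mom : ∀ m : ℕ, ∫ θ in (0:ℝ)..2 * Real.pi, (h θ : ℂ) * Complex.exp (-(θ * Complex.I)) ^ m =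
      (1/2) * ((r:ℂ)^m * coeff m (tay p) + if m = 0 then 1 else 0) := by
    intro m
    have e : ∀ θ : ℝ, (h θ : ℂ) * Complex.exp (-(θ * Complex.I)) ^ m =
        (1 / (4 * Real.pi)) * (Complex.exp (-(θ * Complex.I)) ^ m * p (circleMap 0 r θ) +
        Complex.exp (-(θ * Complex.I)) ^ m * conj (p (circleMap 0 r θ))) := by
      intro θ
      have h2 := Complex.add_conj (p (circleMap 0 r θ))
      rw [← mul_add, h2, hh]
      push_cast
      field_simp
      ring
    simp_rw [e]
    have c1 : Continuous fun θ : ℝ => Complex.exp (-(θ * Complex.I)) ^ m := by fun_prop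
    have i1 : IntervalIntegrable (fun θ : ℝ => Complex.exp (-(θ * Complex.I)) ^ m *
        p (circleMap 0 r θ)) volume 0 (2 * Real.pi) :=
      (c1.mul (q_cont hp h0 h1)).intervalIntegrable _ _
    have i2 : IntervalIntegrable (fun θ : ℝ => Complex.exp (-(θ * Complex.I)) ^ m *
        conj (p (circleMap 0 r θ))) volume 0 (2 * Real.pi) :=
      (c1.mul (Complex.continuous_conj.comp (q_cont hp h0 h1))).intervalIntegrable _ _
    rw [intervalIntegral.integral_const_mul, intervalIntegral.integral_add i1 i2,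
      four1 hp h0 h1, four3 hp h0 h1 hp0]
    by_cases hm : m = 0
    · rw [if_pos hm, if_pos hm]; field_simp; ring
    · rw [if_neg hm, if_neg hm]; field_simp; ring
  refine ⟨(volume.restrict (Set.Ioc 0 (2 * Real.pi))).withDensity (fun θ => (g θ : ENNReal)), ?_, ?_⟩
  · constructor
    rw [withDensity_apply _ MeasurableSet.univ, Measure.restrict_univ]
    have hint : Integrable h (volume.restrict (Set.Ioc 0 (2 * Real.pi))) := by
      have := hc.intervalIntegrable (μ := volume) 0 (2 * Real.pi)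
      rwa [intervalIntegrable_iff_integrableOn_Ioc_of_le hpi.le] at this
    have : ∫⁻ θ in Set.Ioc 0 (2 * Real.pi), (g θ : ENNReal) =
        ENNReal.ofReal (∫ θ in Set.Ioc 0 (2 * Real.pi), h θ) := by
      rw [ofReal_integral_eq_lintegral_ofReal hint (Filter.Eventually.of_forall hnn)]
      rfl
    rw [this]
    have e2 : ∫ θ in Set.Ioc 0 (2 * Real.pi), h θ = 1 := by
      have h3 := mom 0
      simp only [pow_zero, mul_one, one_mul, if_true] at h3
      rw [coeff_zero_eq_constantCoeff_apply, tay_zero, hp0, intervalIntegral.integral_ofReal] at h3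
      rw [← intervalIntegral.integral_of_le hpi.le]
      have h4 : ((∫ θ in (0:ℝ)..2 * Real.pi, h θ : ℝ) : ℂ) = 1 := by rw [h3]; norm_num
      exact_mod_cast h4
    rw [e2, ENNReal.ofReal_one]
  · intro m
    rw [integral_withDensity_eq_integral_smul hgm, ← intervalIntegral.integral_of_le hpi.le]
    have e : ∀ θ : ℝ, g θ • Complex.exp (-(θ * Complex.I)) ^ m =
        (h θ : ℂ) * Complex.exp (-(θ * Complex.I)) ^ m := by
      intro θ
      rw [NNReal.smul_def, hg]
      simp only [Real.coe_toNNReal _ (hnn θ)]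
      exact Complex.real_smul
    simp_rw [e]
    rw [mom m, P0, coeff_mk]
    by_cases hm : m = 0
    · subst hm
      rw [coeff_zero_eq_constantCoeff_apply, tay_zero, hp0]; norm_num
    · rw [if_neg hm, if_neg hm]; ring

end

end Pool.Agent.R194.Baz
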