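import Pool.Agent.R194.Baz.Fam

/-!
Nonnegative series and the majorisation theorem.
-/
namespace Pool.Agent.R194.Baz

open PowerSeries Finset ComplexConjugate MeasureTheory

/-- all coefficients are nonnegative reals -/
def NN (H : PowerSeries ℂ) : Prop := ∀ m, ∃ r : ℝ, 0 ≤ r ∧ coeff m H = (r : ℂ)

lemma NN.norm {H : PowerSeries ℂ} (h : NN H) (m : ℕ) : ((‖coeff m H‖ : ℝ) : ℂ) = coeff m H := by
  obtain ⟨r, hr, e⟩ := h m
  rw [e, Complex.norm_real, Real.norm_of_nonneg hr]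

lemma NN.one : NN 1 := by
  intro m
  by_cases h : m = 0
  · exact ⟨1, zero_le_one, by simp [h]⟩
  · exact ⟨0, le_rfl, by rw [PowerSeries.coeff_one, if_neg h]; simp⟩

lemma NN.X : NN (X : PowerSeries ℂ) := by
  intro m
  by_cases h : m = 1
  · exact ⟨1, zero_le_one, by rw [coeff_X, if_pos h]; simp⟩
  · exact ⟨0, le_rfl, by rw [coeff_X, if_neg h]; simp⟩

lemma NN.add {A B : PowerSeries ℂ} (hA : NN A) (hB : NN B) : NN (A + B) := by
  intro m
  obtain ⟨a, ha, ea⟩ := hA m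
  obtain ⟨b, hb, eb⟩ := hB m
  exact ⟨a + b, add_nonneg ha hb, by rw [map_add, ea, eb]; push_cast; rfl⟩

lemma nn_sum {A B : PowerSeries ℂ} (m : ℕ)
    (hA : ∀ p ∈ antidiagonal m, ∃ r : ℝ, 0 ≤ r ∧ coeff p.1 A * coeff p.2 B = (r:ℂ)) :
    ∃ r : ℝ, 0 ≤ r ∧ coeff m (A * B) = (r : ℂ) := by
  rw [PowerSeries.coeff_mul]
  refine ⟨∑ p ∈ antidiagonal m, (coeff p.1 A * coeff p.2 B).re, ?_, ?_⟩
  · apply sum_nonneg; intro p hp
    obtain ⟨r, hr, e⟩ := hA p hp
    rw [e, Complex.ofReal_re]; exact hr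
  · rw [Complex.ofReal_sum]
    apply sum_congr rfl; intro p hp
    obtain ⟨r, hr, e⟩ := hA p hp
    rw [e, Complex.ofReal_re]

lemma NN.mul {A B : PowerSeries ℂ} (hA : NN A) (hB : NN B) : NN (A * B) := by
  intro m
  apply nn_sum
  intro p _
  obtain ⟨a, ha, ea⟩ := hA p.1
  obtain ⟨b, hb, eb⟩ := hB p.2
  exact ⟨a*b, mul_nonneg ha hb, by rw [ea, eb]; push_cast; rfl⟩

lemma NN.C {c : ℝ} (hc : 0 ≤ c) : NN (PowerSeries.C (c:ℂ)) := by
  intro m
  by_cases h : m = 0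
  · exact ⟨c, hc, by simp [h]⟩
  · exact ⟨0, le_rfl, by rw [coeff_C, if_neg h]; simp⟩

lemma NN.mul_norm {A B : PowerSeries ℂ} (hA : NN A) (hB : NN B) (m : ℕ) :
    ‖coeff m (A * B)‖ = ∑ p ∈ antidiagonal m, ‖coeff p.1 A‖ * ‖coeff p.2 B‖ := by
  have e : coeff m (A * B) = ((∑ p ∈ antidiagonal m, ‖coeff p.1 A‖ * ‖coeff p.2 B‖ : ℝ) : ℂ) := by
    rw [PowerSeries.coeff_mul, Complex.ofReal_sum]
    apply sum_congr rfl; intro p _
    rw [Complex.ofReal_mul, hA.norm, hB.norm]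
  rw [e, Complex.norm_real, Real.norm_of_nonneg]
  exact sum_nonneg fun p _ => by positivity

/-- product of majorised series -/
lemma maj_mul {A B A' B' : PowerSeries ℂ} (hA' : NN A') (hB' : NN B')
    (h1 : ∀ m, ‖coeff m A‖ ≤ ‖coeff m A'‖) (h2 : ∀ m, ‖coeff m B‖ ≤ ‖coeff m B'‖) (m : ℕ) :
    ‖coeff m (A * B)‖ ≤ ‖coeff m (A' * B')‖ := by
  rw [hA'.mul_norm hB', PowerSeries.coeff_mul]
  refine (norm_sum_le _ _).trans (sum_le_sum fun p _ => ?_)
  rw [norm_mul]
  exact mul_le_mul (h1 _) (h2 _) (norm_nonneg _) (norm_nonneg _)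

/-- solution of a fixed point equation -/
lemma NN.fix {K B D : PowerSeries ℂ} (hK : NN K) (hB : NN B) (hK0 : coeff 0 K = 0)
    (h : D = B + K * D) : NN D := by
  intro m
  induction m using Nat.strong_induction_on with
  | _ m ih =>
    have h1 : ∃ r : ℝ, 0 ≤ r ∧ coeff m (K * D) = (r : ℂ) := by
      apply nn_sum
      intro p hp
      have hp' : p.1 + p.2 = m := by simpa using hp
      by_cases h0 : p.1 = 0
      · exact ⟨0, le_rfl, by rw [h0, hK0]; simp⟩
      · obtain ⟨a, ha, ea⟩ := hK p.1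
        obtain ⟨b, hb, eb⟩ := ih p.2 (by omega)
        exact ⟨a*b, mul_nonneg ha hb, by rw [ea, eb]; push_cast; rfl⟩
    obtain ⟨a, ha, ea⟩ := hB m
    obtain ⟨b, hb, eb⟩ := h1
    exact ⟨a + b, add_nonneg ha hb, by rw [h, map_add, ea, eb]; push_cast; rfl⟩

/-- solution of a linear differential equation -/
lemma NN.ode {E D : PowerSeries ℂ} {c : ℝ} (hc : 0 ≤ c) (hD : NN D) (h0 : constantCoeff E = 1)
    (h : derivative ℂ E = PowerSeries.C (c:ℂ) * (D * E)) : NN E := by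
  intro m
  induction m using Nat.strong_induction_on with
  | _ m ih =>
    rcases Nat.eq_zero_or_pos m with hm | hm
    · subst hm
      exact ⟨1, zero_le_one, by rw [coeff_zero_eq_constantCoeff_apply, h0]; simp⟩
    obtain ⟨k, rfl⟩ : ∃ k, m = k + 1 := ⟨m-1, by omega⟩
    have h1 : ∃ r : ℝ, 0 ≤ r ∧ coeff k (D * E) = (r : ℂ) := by
      apply nn_sum
      intro p hp
      have hp' : p.1 + p.2 = k := by simpa using hp
      obtain ⟨a, ha, ea⟩ := hD p.1
      obtain ⟨b, hb, eb⟩ := ih p.2 (by omega)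
      exact ⟨a*b, mul_nonneg ha hb, by rw [ea, eb]; push_cast; rfl⟩
    obtain ⟨r, hr, er⟩ := h1
    have h2 := congrArg (coeff k) h
    rw [coeff_derivative, coeff_C_mul, er] at h2
    have hk : ((k:ℂ) + 1) ≠ 0 := by exact_mod_cast Nat.succ_ne_zero k
    refine ⟨c * r / (k + 1), by positivity, ?_⟩
    push_cast
    rw [eq_div_iff hk, h2]

/-- logarithmic derivative of the extremal series -/
noncomputable def D0 (α : ℝ) : PowerSeries ℂ := derivative ℂ (G0 α) * (G0 α)⁻¹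

lemma G0_ne {α : ℝ} (hα : 0 < α) : constantCoeff (G0 α) ≠ 0 := by
  rw [const_G0 hα]; norm_num

lemma D0_mul {α : ℝ} (hα : 0 < α) : D0 α * G0 α = derivative ℂ (G0 α) := by
  unfold D0
  rw [mul_assoc, PowerSeries.inv_mul_cancel _ (G0_ne hα), mul_one]

lemma kapC_nn {α : ℝ} (hα : 0 < α) : NN (kapC α) := by
  intro m
  exact ⟨coeff m (kap α), kap_nonneg hα m, by simp [kapC, PowerSeries.coeff_map]⟩

lemma kapC_zero {α : ℝ} (hα : 0 < α) : coeff 0 (kapC α) = 0 := by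
  rw [kapC, PowerSeries.coeff_map, kap_zero hα]; simp

lemma NN.deriv {A : PowerSeries ℂ} (h : NN A) : NN (derivative ℂ A) := by
  intro m
  obtain ⟨r, hr, e⟩ := h (m+1)
  exact ⟨r * (m+1), by positivity, by rw [coeff_derivative, e]; push_cast; rfl⟩

lemma D0_eq {α : ℝ} (hα : 0 < α) :
    D0 α = PowerSeries.C ((2:ℝ):ℂ) * derivative ℂ (kapC α) + (kapC α * kapC α) * D0 α := by
  have h1 := G0_mul hα
  have h2 := congrArg (derivative ℂ) h1
  rw [Derivation.leibniz, map_sub, map_add, Derivation.map_one_eq_zero] at h2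
  simp only [smul_eq_mul] at h2
  have h3 := D0_mul hα
  have hG : G0 α ≠ 0 := by
    intro h; have := G0_ne hα; rw [h] at this; simp at this
  have h4 : (PowerSeries.C ((2:ℝ):ℂ) : PowerSeries ℂ) = 2 := by
    have := (map_ofNat (PowerSeries.C (R := ℂ)) 2)
    simpa using this
  rw [h4]
  -- multiply by G0
  apply mul_right_cancel₀ hG
  have h5 : G0 α * (1 - kapC α) * (1 - kapC α) = (1 + kapC α) * (1 - kapC α) := by rw [h1]
  have h6 : derivative ℂ (G0 α) * (1 - kapC α) * (1 - kapC α) = 2 * derivative ℂ (kapC α) := by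
    linear_combination (1 - kapC α) * h2 + derivative ℂ (kapC α) * h1
  linear_combination (1 - kapC α * kapC α) * h3 - derivative ℂ (G0 α) * h5 + G0 α * h6

lemma D0_nn {α : ℝ} (hα : 0 < α) : NN (D0 α) :=
  NN.fix ((kapC_nn hα).mul (kapC_nn hα)) ((NN.C (by norm_num)).mul (kapC_nn hα).deriv)
    (by
      rw [coeff_zero_eq_constantCoeff_apply, map_mul]
      have := kapC_zero hα
      rw [coeff_zero_eq_constantCoeff_apply] at this
      rw [this, mul_zero]) (D0_eq hα)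

lemma G0_nn {α : ℝ} (hα : 0 < α) : NN (G0 α) := by
  intro m
  rw [coeff_G0 α hα]
  by_cases h : m = 0
  · exact ⟨1, zero_le_one, by rw [if_pos h]; simp⟩
  · exact ⟨2 * gam α m, by have := gam_pos hα m; positivity, by rw [if_neg h]⟩

/-- `α P0 = α G0 + X G0'` -/
lemma P0_rel {α : ℝ} (hα : 0 < α) :
    PowerSeries.C (α:ℂ) * P0 = PowerSeries.C (α:ℂ) * G0 α + X * derivative ℂ (G0 α) := by
  ext m
  rw [map_add, coeff_C_mul, coeff_C_mul, P0, coeff_mk, coeff_G0 α hα]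
  rcases Nat.eq_zero_or_pos m with h | h
  · subst h; simp
  · obtain ⟨k, rfl⟩ : ∃ k, m = k + 1 := ⟨m-1, by omega⟩
    rw [if_neg (by omega), if_neg (by omega), coeff_succ_X_mul, coeff_derivative, coeff_G0 α hα,
      if_neg (by omega)]
    unfold gam
    have : ((k:ℂ) + 1 + α) ≠ 0 := by
      have h1 : (k:ℝ) + 1 + α ≠ 0 := by positivity
      exact_mod_cast h1
    push_cast
    field_simp
    ring

end Pool.Agent.R194.Baz
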