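import Pool.Agent.R194.Baz.Core

/-!
Taylor series of analytic functions as formal power series.
-/
namespace Pool.Agent.R194.Baz

open PowerSeries Finset ComplexConjugate MeasureTheory Topology

/-- Taylor series at zero -/
noncomputable def tay (f : ℂ → ℂ) : PowerSeries ℂ :=
  PowerSeries.mk fun n => iteratedDeriv n f 0 / (n.factorial : ℂ)

lemma coeff_tay (f : ℂ → ℂ) (n : ℕ) : coeff n (tay f) = iteratedDeriv n f 0 / (n.factorial : ℂ) := by
  rw [tay, coeff_mk]

lemma tay_congr {f g : ℂ → ℂ} (h : f =ᶠ[𝓝 0] g) : tay f = tay g := by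
  ext n
  rw [coeff_tay, coeff_tay, h.iteratedDeriv_eq]

lemma tay_congr_ball {f g : ℂ → ℂ} (h : ∀ z ∈ Metric.ball (0:ℂ) 1, f z = g z) : tay f = tay g :=
  tay_congr (Filter.eventuallyEq_of_mem (Metric.ball_mem_nhds _ one_pos) h)

lemma tay_mul {f g : ℂ → ℂ} (hf : AnalyticAt ℂ f 0) (hg : AnalyticAt ℂ g 0) :
    tay (fun z => f z * g z) = tay f * tay g := by
  ext n
  rw [coeff_tay, iteratedDeriv_fun_mul hf.contDiffAt hg.contDiffAt, PowerSeries.coeff_mul,
    Finset.Nat.sum_antidiagonal_eq_sum_range_succ_mk, sum_div]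
  apply sum_congr rfl; intro i hi
  have hi' : i ≤ n := by simpa [Nat.lt_succ_iff] using hi
  rw [coeff_tay, coeff_tay]
  have h1 : (n.choose i : ℂ) * (i.factorial : ℂ) * ((n-i).factorial : ℂ) = (n.factorial : ℂ) := by
    exact_mod_cast Nat.choose_mul_factorial_mul_factorial hi'
  have h2 : (i.factorial : ℂ) ≠ 0 := by exact_mod_cast i.factorial_ne_zero
  have h3 : ((n-i).factorial : ℂ) ≠ 0 := by exact_mod_cast (n-i).factorial_ne_zero
  have h4 : (n.factorial : ℂ) ≠ 0 := by exact_mod_cast n.factorial_ne_zero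
  field_simp
  rw [← h1]; ring

lemma tay_add {f g : ℂ → ℂ} (hf : AnalyticAt ℂ f 0) (hg : AnalyticAt ℂ g 0) :
    tay (fun z => f z + g z) = tay f + tay g := by
  ext n
  rw [coeff_tay, iteratedDeriv_fun_add hf.contDiffAt hg.contDiffAt, map_add, coeff_tay, coeff_tay,
    add_div]

lemma tay_const (c : ℂ) : tay (fun _ => c) = PowerSeries.C c := by
  ext n
  rw [coeff_tay, coeff_C, iteratedDeriv_const]
  by_cases h : n = 0
  · subst h; simp
  · simp [h]

lemma tay_id : tay (fun z => z) = X := by
  ext n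
  rw [coeff_tay, coeff_X, iteratedDeriv_fun_id_zero]
  by_cases h : n = 1
  · subst h; simp
  · simp [h]

lemma tay_deriv (f : ℂ → ℂ) : derivative ℂ (tay f) = tay (deriv f) := by
  ext n
  rw [coeff_derivative, coeff_tay, coeff_tay, iteratedDeriv_succ']
  have h2 : (n.factorial : ℂ) ≠ 0 := by exact_mod_cast n.factorial_ne_zero
  have h3 : ((n:ℂ) + 1) ≠ 0 := by exact_mod_cast Nat.succ_ne_zero n
  rw [Nat.factorial_succ]
  push_cast
  field_simp

lemma tay_const_mul {f : ℂ → ℂ} (c : ℂ) (hf : AnalyticAt ℂ f 0) :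
    tay (fun z => c * f z) = PowerSeries.C c * tay f := by
  rw [tay_mul analyticAt_const hf, tay_const]

lemma tay_zero (f : ℂ → ℂ) : constantCoeff (tay f) = f 0 := by
  rw [← coeff_zero_eq_constantCoeff_apply, coeff_tay]; simp

lemma tay_inj {f g : ℂ → ℂ} (hf : DifferentiableOn ℂ f (Metric.ball 0 1))
    (hg : DifferentiableOn ℂ g (Metric.ball 0 1)) (h : tay f = tay g) :
    ∀ z ∈ Metric.ball (0:ℂ) 1, f z = g z := by
  intro z hz
  rw [← Complex.taylorSeries_eq_on_ball' hz hf, ← Complex.taylorSeries_eq_on_ball' hz hg]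
  congr 1; funext n
  have := congrArg (coeff n) h
  rw [coeff_tay, coeff_tay] at this
  have h4 : (n.factorial : ℂ) ≠ 0 := by exact_mod_cast n.factorial_ne_zero
  rw [div_left_inj' h4] at this
  rw [this]

/-- the family of powers of the exponential of an analytic function -/
noncomputable def pw (L : ℂ → ℂ) (s : ℝ) : PowerSeries ℂ := tay (fun z => Complex.exp ((s:ℂ) * L z))

lemma pw_an {L : ℂ → ℂ} (hL : AnalyticAt ℂ L 0) (s : ℝ) :
    AnalyticAt ℂ (fun z => Complex.exp ((s:ℂ) * L z)) 0 := (analyticAt_const.mul hL).cexp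

lemma pw_ode {L : ℂ → ℂ} (hL : AnalyticAt ℂ L 0) (s : ℝ) :
    derivative ℂ (pw L s) = PowerSeries.C (s:ℂ) * (tay (deriv L) * pw L s) := by
  unfold pw
  rw [tay_deriv, ← tay_mul hL.deriv (pw_an hL s), ← tay_const_mul (f := fun z => deriv L z * Complex.exp ((s:ℂ) * L z)) _
    (hL.deriv.mul (pw_an hL s))]
  apply tay_congr
  filter_upwards [hL.eventually_analyticAt] with z hz
  have h1 := hz.differentiableAt.hasDerivAt
  rw [((h1.const_mul (s:ℂ)).cexp).deriv]
  ring

lemma pw_fam {L : ℂ → ℂ} (hL : AnalyticAt ℂ L 0) (h0 : L 0 = 0) : Fam (pw L) where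
  add s t := by
    unfold pw
    rw [← tay_mul (pw_an hL s) (pw_an hL t)]
    congr 1; funext z
    rw [← Complex.exp_add]; congr 1; push_cast; ring
  c0 s := by
    unfold pw
    rw [tay_zero, h0]; simp
  cont n := by
    induction n using Nat.strong_induction_on with
    | _ n ih =>
      rcases Nat.eq_zero_or_pos n with hn | hn
      · subst hn
        have : (fun s => coeff 0 (pw L s)) = fun _ => 1 := by
          funext s
          rw [coeff_zero_eq_constantCoeff_apply, pw, tay_zero, h0]; simp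
        rw [this]; exact continuous_const
      · obtain ⟨k, rfl⟩ : ∃ k, n = k + 1 := ⟨n-1, by omega⟩
        have hk : ((k:ℂ) + 1) ≠ 0 := by exact_mod_cast Nat.succ_ne_zero k
        have : (fun s => coeff (k+1) (pw L s)) = fun s : ℝ =>
            ((s:ℂ) * ∑ p ∈ antidiagonal k, coeff p.1 (tay (deriv L)) * coeff p.2 (pw L s)) / ((k:ℂ) + 1) := by
          funext s
          have h2 := congrArg (coeff k) (pw_ode hL s)
          rw [coeff_derivative, coeff_C_mul, PowerSeries.coeff_mul] at h2
          rw [eq_div_iff hk, h2]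
        rw [this]
        apply Continuous.div_const
        apply Complex.continuous_ofReal.mul
        apply continuous_finsetSum; intro p hp
        have hp' : p.1 + p.2 = k := by simpa using hp
        exact continuous_const.mul (ih p.2 (by omega))

end Pool.Agent.R194.Baz
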